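import Pool.Agent.Y868.VR.G1

/-! Project VR (helper868): level sets of multiplicative functions with values in arbitrary groups. -/

set_option autoImplicit false

namespace Pool.Agent.Y868.VR

open Finset Filter Topology

section

variable {G : Type} [Group G]

/-- multiplicative functions -/
structure GM (f : ℕ → G) : Prop where
  one : f 1 = 1
  mul : ∀ m n : ℕ, 0 < m → 0 < n → Nat.Coprime m n → f (m * n) = f m * f n

theorem GM.comm {f : ℕ → G} (h : GM f) {m n : ℕ} (hm : 0 < m) (hn : 0 < n)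
    (hmn : Nat.Coprime m n) : f m * f n = f n * f m := by
  rw [← h.mul m n hm hn hmn, mul_comm m n, h.mul n m hn hm hmn.symm]

/-- `x` commutes with all values -/
def Cen (f : ℕ → G) (x : G) : Prop := ∀ n : ℕ, 0 < n → f n * x = x * f n

theorem split {f : ℕ → G} (h : GM f) {n : ℕ} (hn : 0 < n) {p : ℕ} (hp : p.Prime) :
    ∃ n' : ℕ, 0 < n' ∧ Nat.Coprime p n' ∧ n = p ^ (n.factorization p) * n' ∧
      f n = f (p ^ (n.factorization p)) * f n' := by
  have h1 : n = p ^ (n.factorization p) * (n / p ^ (n.factorization p)) :=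
    (Nat.ordProj_mul_ordCompl_eq_self n p).symm
  have h2 : Nat.Coprime p (n / p ^ (n.factorization p)) := Nat.coprime_ordCompl hp hn.ne'
  have h3 : 0 < n / p ^ (n.factorization p) := Nat.ordCompl_pos p hn.ne'
  refine ⟨_, h3, h2, h1, ?_⟩
  rw [← h.mul _ _ (pow_pos hp.pos _) h3 (Nat.Coprime.pow_left _ h2), ← h1]

/-- away from a fixed element of the level set the local values are central -/
theorem cen_of {f : ℕ → G} (h : GM f) {m₀ n : ℕ} (hm₀ : 0 < m₀) (hn : 0 < n) (heq : f n = f m₀)
    {p : ℕ} (hp : p.Prime) (hpm : ¬ p ∣ m₀) : Cen f (f (p ^ (n.factorization p))) := by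
  obtain ⟨n', hn', hpn, -, hfn⟩ := split h hn hp
  set x := f (p ^ (n.factorization p)) with hx
  intro k hk
  obtain ⟨k', hk', hpk, -, hfk⟩ := split h hk hp
  set y := f (p ^ (k.factorization p)) with hy
  have hpm' : Nat.Coprime p m₀ := (Nat.Prime.coprime_iff_not_dvd hp).2 hpm
  have c1 : y * f m₀ = f m₀ * y :=
    h.comm (pow_pos hp.pos _) hm₀ (Nat.Coprime.pow_left _ hpm')
  have c2 : y * f n' = f n' * y :=
    h.comm (pow_pos hp.pos _) hn' (Nat.Coprime.pow_left _ hpn)
  have c3 : x * f k' = f k' * x :=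
    h.comm (pow_pos hp.pos _) hk' (Nat.Coprime.pow_left _ hpk)
  rw [← heq, hfn] at c1
  have c4 : y * x = x * y := by
    have h1 : y * x * f n' = x * y * f n' := by
      rw [mul_assoc, c1, mul_assoc, mul_assoc, c2]
    exact mul_right_cancel h1
  rw [hfk, mul_assoc, ← c3, ← mul_assoc, c4, mul_assoc]

/-- central values -/
def kset (f : ℕ → G) : Set G := {x | (∃ n, 0 < n ∧ f n = x) ∧ Cen f x}

theorem kset_comm (f : ℕ → G) : ∀ x ∈ kset f, ∀ y ∈ kset f, x * y = y * x := by
  rintro x ⟨⟨n, hn, rfl⟩, _⟩ y ⟨_, hy⟩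
  exact hy n hn

noncomputable instance zc (f : ℕ → G) : CommGroup (Subgroup.closure (kset f)) :=
  Subgroup.closureCommGroupOfComm (kset_comm f)

/-- good prime powers -/
def good (f : ℕ → G) (m₀ p a : ℕ) : Prop := ¬ p ∣ m₀ ∧ Cen f (f (p ^ a))

/-- all prime powers are good -/
def GoodN (f : ℕ → G) (m₀ n : ℕ) : Prop :=
  ∀ p : ℕ, p.Prime → p ∣ n → good f m₀ p (n.factorization p)

open scoped Classical in
/-- the first local factor -/
noncomputable def p1 (f : ℕ → G) (p a : ℕ) : Subgroup.closure (kset f) :=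
  if h : f (p ^ a) ∈ Subgroup.closure (kset f) then ⟨f (p ^ a), h⟩ else 1

open scoped Classical in
/-- the marker -/
noncomputable def p2 (f : ℕ → G) (m₀ p a : ℕ) : Multiplicative ℤ :=
  if good f m₀ p a then 1 else Multiplicative.ofAdd 1

/-- the associated function with values in an abelian group -/
noncomputable def FF (f : ℕ → G) (m₀ : ℕ) (n : ℕ) : Subgroup.closure (kset f) × Multiplicative ℤ :=
  n.factorization.prod (fun p a => (p1 f p a, p2 f m₀ p a))

theorem FF_one (f : ℕ → G) (m₀ : ℕ) : FF f m₀ 1 = 1 := by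
  unfold FF; simp

theorem FF_mul (f : ℕ → G) (m₀ : ℕ) {m n : ℕ} (hm : 0 < m) (hn : 0 < n) (h : Nat.Coprime m n) :
    FF f m₀ (m * n) = FF f m₀ m * FF f m₀ n := by
  unfold FF
  rw [Nat.factorization_mul hm.ne' hn.ne', Finsupp.prod_add_index_of_disjoint]
  rw [Nat.support_factorization, Nat.support_factorization]
  exact h.disjoint_primeFactors

theorem GoodN_mul {f : ℕ → G} {m₀ m n : ℕ} (hm : 0 < m) (hn : 0 < n) (h : Nat.Coprime m n) :
    GoodN f m₀ (m * n) ↔ GoodN f m₀ m ∧ GoodN f m₀ n := by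
  have e : ∀ p : ℕ, (m * n).factorization p = m.factorization p + n.factorization p := by
    intro p
    rw [Nat.factorization_mul hm.ne' hn.ne']; rfl
  have hd : ∀ p : ℕ, p.Prime → p ∣ m → ¬ p ∣ n := by
    intro p hp h1 h2
    have h3 := Nat.dvd_gcd h1 h2
    rw [h] at h3
    exact hp.one_lt.ne' (Nat.dvd_one.1 h3)
  constructor
  · intro hg
    refine ⟨fun p hp hpm => ?_, fun p hp hpn => ?_⟩
    · have h1 := hg p hp (hpm.mul_right n)
      rwa [e, Nat.factorization_eq_zero_of_not_dvd (hd p hp hpm), add_zero] at h1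
    · have h1 := hg p hp (hpn.mul_left m)
      rwa [e, Nat.factorization_eq_zero_of_not_dvd (fun h' => hd p hp h' hpn), zero_add] at h1
  · rintro ⟨h1, h2⟩ p hp hpmn
    rw [e]
    rcases (hp.dvd_mul).1 hpmn with h3 | h3
    · rw [Nat.factorization_eq_zero_of_not_dvd (hd p hp h3), add_zero]
      exact h1 p hp h3
    · rw [Nat.factorization_eq_zero_of_not_dvd (fun h' => hd p hp h' h3), zero_add]
      exact h2 p hp h3

theorem FF_spec {f : ℕ → G} (h : GM f) (m₀ : ℕ) (n : ℕ) : 0 < n →
    0 ≤ Multiplicative.toAdd (FF f m₀ n).2 ∧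
    (Multiplicative.toAdd (FF f m₀ n).2 = 0 ↔ GoodN f m₀ n) ∧
    (GoodN f m₀ n → (((FF f m₀ n).1 : Subgroup.closure (kset f)) : G) = f n) := by
  classical
  induction n using Nat.recOnPosPrimePosCoprime with
  | zero => intro h0; exact absurd h0 (lt_irrefl 0)
  | one =>
    intro _
    rw [FF_one]
    refine ⟨le_rfl, ⟨fun _ p hp hp1 => absurd (Nat.dvd_one.1 hp1) hp.one_lt.ne', fun _ => rfl⟩,
      fun _ => h.one.symm⟩
  | prime_pow p a hp ha =>
    intro _
    have e : FF f m₀ (p ^ a) = (p1 f p a, p2 f m₀ p a) := by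
      unfold FF
      rw [hp.factorization_pow, Finsupp.prod]
      rw [Finsupp.support_single_ne_zero _ ha.ne']
      simp
    have hg : GoodN f m₀ (p ^ a) ↔ good f m₀ p a := by
      constructor
      · intro h1
        have h2 := h1 p hp (dvd_pow_self p ha.ne')
        rwa [hp.factorization_pow, Finsupp.single_eq_same] at h2
      · intro h1 q hq hqp
        have h2 : q = p := (Nat.prime_dvd_prime_iff_eq hq hp).1 (hq.dvd_of_dvd_pow hqp)
        rw [h2, hp.factorization_pow, Finsupp.single_eq_same]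
        exact h1
    rw [e, hg]
    unfold p2
    simp only
    by_cases h1 : good f m₀ p a
    · rw [if_pos h1]
      refine ⟨le_rfl, ⟨fun _ => h1, fun _ => rfl⟩, fun _ => ?_⟩
      have h2 : f (p ^ a) ∈ Subgroup.closure (kset f) :=
        Subgroup.subset_closure ⟨⟨p ^ a, pow_pos hp.pos _, rfl⟩, h1.2⟩
      unfold p1
      rw [dif_pos h2]
    · rw [if_neg h1]
      refine ⟨by simp, ⟨fun h2 => by simp at h2, fun h2 => absurd h2 h1⟩, fun h2 => absurd h2 h1⟩
  | coprime a b ha hb hab iha ihb =>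
    intro _
    have ha0 : 0 < a := by omega
    have hb0 : 0 < b := by omega
    obtain ⟨a1, a2, a3⟩ := iha ha0
    obtain ⟨b1, b2, b3⟩ := ihb hb0
    have e : FF f m₀ (a * b) = FF f m₀ a * FF f m₀ b := FF_mul f m₀ ha0 hb0 hab
    have e2 : Multiplicative.toAdd (FF f m₀ (a * b)).2 =
        Multiplicative.toAdd (FF f m₀ a).2 + Multiplicative.toAdd (FF f m₀ b).2 := by
      rw [e]; rfl
    rw [e2, GoodN_mul ha0 hb0 hab, ← a2, ← b2]
    refine ⟨add_nonneg a1 b1, ⟨fun h1 => ⟨by omega, by omega⟩, fun h1 => by rw [h1.1, h1.2]; rfl⟩,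
      fun h1 => ?_⟩
    rw [e, h.mul a b ha0 hb0 hab, ← a3 (a2.1 h1.1), ← b3 (b2.1 h1.2)]
    rfl

open scoped Classical in
/-- the good elements of a level set have a density -/
theorem dens_good {f : ℕ → G} (h : GM f) (m₀ : ℕ) (z : G) :
    ∃ d : ℝ, Tendsto (fun N : ℕ => (∑ t ∈ Ioc 0 N, if GoodN f m₀ t ∧ f t = z then (1 : ℝ) else 0) /
      (N : ℝ)) atTop (𝓝 d) := by
  by_cases hz : z ∈ Subgroup.closure (kset f)
  · obtain ⟨d, hd⟩ := abel (F := FF f m₀) (FF_one f m₀)
      (fun m n hm hn hmn => FF_mul f m₀ hm hn hmn) (⟨z, hz⟩, 1)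
    refine ⟨d, hd.congr fun N => ?_⟩
    congr 1
    rw [← Finset.sum_filter, sum_const, nsmul_eq_mul, mul_one]
    congr 1
    refine Nat.subtype_card _ fun n => ?_
    rw [mem_filter, mem_Ioc, and_assoc]
    constructor
    · rintro ⟨h1, h2, h3, h4⟩
      obtain ⟨-, c2, c3⟩ := FF_spec h m₀ n h1
      refine ⟨h1, h2, ?_⟩
      refine Prod.ext ?_ ?_
      · apply Subtype.ext
        rw [c3 h3, h4]
      · exact c2.2 h3
    · rintro ⟨h1, h2, h3⟩
      obtain ⟨-, c2, c3⟩ := FF_spec h m₀ n h1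
      have h4 : GoodN f m₀ n := c2.1 (by rw [h3]; rfl)
      refine ⟨h1, h2, h4, ?_⟩
      rw [← c3 h4, h3]
  · refine ⟨0, ?_⟩
    refine Tendsto.congr (fun N => ?_) tendsto_const_nhds
    rw [sum_eq_zero, zero_div]
    intro t ht
    rw [mem_Ioc] at ht
    rw [if_neg]
    rintro ⟨h1, h2⟩
    apply hz
    rw [← h2, ← (FF_spec h m₀ t ht.1).2.2 h1]
    exact Subtype.property _

/-- **Ruzsa's problem**: the level sets of a group valued multiplicative function have densities. -/
theorem ruzsa {f : ℕ → G} (h : GM f) (g : G) :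
    ∃ d : ℝ, Tendsto (fun N : ℕ => (Nat.card {m : ℕ // 1 ≤ m ∧ m ≤ N ∧ f m = g} : ℝ) / (N : ℝ))
      atTop (𝓝 d) := by
  classical
  have hcard : ∀ N : ℕ, (Nat.card {m : ℕ // 1 ≤ m ∧ m ≤ N ∧ f m = g} : ℝ) =
      ∑ n ∈ Ioc 0 N, if f n = g then (1 : ℝ) else 0 := by
    intro N
    rw [← Finset.sum_filter, sum_const, nsmul_eq_mul, mul_one]
    congr 1
    refine Nat.subtype_card _ fun n => ?_
    rw [mem_filter, mem_Ioc, and_assoc]
    exact Iff.rfl
  by_cases hex : ∃ m₀ : ℕ, 0 < m₀ ∧ f m₀ = g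
  · obtain ⟨m₀, hm₀, hfm⟩ := hex
    have hdens := fun s : ℕ => dens_good h m₀ ((f s)⁻¹ * g)
    choose D hD using hdens
    set c : ℕ → ℕ → ℝ := fun s t => if Sm m₀ s then
      (if GoodN f m₀ t ∧ f t = (f s)⁻¹ * g then (1 : ℝ) else 0) else 0 with hc
    refine ⟨∑' s : ℕ, (if Sm m₀ s then D s else 0) / s, ?_⟩
    have h1 := conv2 c (fun s => if Sm m₀ s then (1 : ℝ) else 0) (fun s t => by
        simp only [hc]
        split_ifs <;> simp) (Sm_summable m₀ hm₀) (fun s => if Sm m₀ s then D s else 0)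
      (fun s hs => by
        simp only [hc]
        by_cases h2 : Sm m₀ s
        · simp only [if_pos h2]
          exact hD s
        · simp only [if_neg h2]
          simp)
    refine h1.congr fun N => ?_
    rw [hcard, ← sum2]
    congr 1
    refine sum_congr rfl fun n hn => ?_
    rw [mem_Ioc] at hn
    obtain ⟨s, t, hs, ht, hst⟩ := exists_fac m₀ n hn.1
    have ht0 : 0 < t := by
      rcases Nat.eq_zero_or_pos t with h0 | h0
      · subst h0; omega
      · exact h0
    have hmem : (s, t) ∈ n.divisorsAntidiagonal := by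
      rw [Nat.mem_divisorsAntidiagonal]; exact ⟨hst, by omega⟩
    have hgoodcop : ∀ u : ℕ, 0 < u → GoodN f m₀ u → Nat.Coprime u m₀ := by
      intro u _ hu
      exact Nat.coprime_of_dvd fun p hp h1 h2 => (hu p hp h1).1 h2
    rw [sum_eq_single_of_mem _ hmem]
    · simp only [hc]
      rw [if_pos hs]
      have hfst : f n = f s * f t := by
        rw [← hst]; exact h.mul s t hs.1 ht0 (hs.coprime ht)
      have hiff : (GoodN f m₀ t ∧ f t = (f s)⁻¹ * g) ↔ f n = g := by
        constructor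
        · rintro ⟨_, h3⟩
          rw [hfst, h3, mul_inv_cancel_left]
        · intro h3
          refine ⟨fun p hp hpt => ?_, by rw [← h3, hfst, inv_mul_cancel_left]⟩
          have hpm : ¬ p ∣ m₀ := by
            intro h4
            have h5 := Nat.dvd_gcd hpt h4
            rw [ht] at h5
            exact hp.one_lt.ne' (Nat.dvd_one.1 h5)
          refine ⟨hpm, ?_⟩
          have h6 := cen_of h hm₀ hn.1 (h3.trans hfm.symm) hp hpm
          have hps : ¬ p ∣ s := fun h7 => hpm (hs.2 p hp h7)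
          have h8 : n.factorization p = t.factorization p := by
            rw [← hst, Nat.factorization_mul hs.1.ne' ht0.ne']
            simp [Nat.factorization_eq_zero_of_not_dvd hps]
          rwa [h8] at h6
      exact if_congr hiff rfl rfl
    · rintro ⟨s', t'⟩ h2 h3
      rw [Nat.mem_divisorsAntidiagonal] at h2
      simp only at h2 h3 ⊢
      simp only [hc]
      by_cases h4 : Sm m₀ s'
      · rw [if_pos h4, if_neg]
        rintro ⟨h5, -⟩
        apply h3
        have ht' : 0 < t' := by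
          rcases Nat.eq_zero_or_pos t' with h0 | h0
          · subst h0; omega
          · exact h0
        have h6 : s' = s := fac_uniq h4 (hgoodcop t' ht' h5) hs ht (h2.1.trans hst.symm)
        subst h6
        have h7 : s' * t' = s' * t := h2.1.trans hst.symm
        rw [Nat.eq_of_mul_eq_mul_left hs.1 h7]
      · rw [if_neg h4]
  · refine ⟨0, ?_⟩
    refine Tendsto.congr (fun N => ?_) tendsto_const_nhds
    rw [hcard, sum_eq_zero, zero_div]
    intro n hn
    rw [mem_Ioc] at hn
    rw [if_neg]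
    intro h1
    exact hex ⟨n, hn.1, h1⟩

end

end Pool.Agent.Y868.VR
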