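import Mathlib

/-! Project VR (helper868): Fourier analysis on the dual of a discrete abelian group. -/

set_option autoImplicit false

namespace Pool.Agent.Y868.VR

open Finset Filter Topology MeasureTheory

section

variable {A : Type} [CommGroup A] [TopologicalSpace A]

/-- evaluation of characters -/
noncomputable def ev (g : A) (χ : PontryaginDual A) : ℂ := ((χ g : Circle) : ℂ)

theorem ev_mul (g h : A) (χ : PontryaginDual A) : ev (g * h) χ = ev g χ * ev h χ := by
  unfold ev; rw [map_mul]; simp

theorem ev_one (χ : PontryaginDual A) : ev (1 : A) χ = 1 := by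
  unfold ev; rw [map_one]; simp

theorem ev_norm (g : A) (χ : PontryaginDual A) : ‖ev g χ‖ = 1 := by
  unfold ev; simp

theorem ev_mul' (g : A) (χ ψ : PontryaginDual A) : ev g (χ * ψ) = ev g χ * ev g ψ := by
  unfold ev
  have : (χ * ψ) g = χ g * ψ g := rfl
  rw [this]; simp

theorem ev_one' (g : A) : ev g (1 : PontryaginDual A) = 1 := by
  unfold ev; simp

theorem ev_inv' (g : A) (χ : PontryaginDual A) : ev g χ⁻¹ = (starRingEnd ℂ) (ev g χ) := by
  have h1 : ev g χ⁻¹ * ev g χ = 1 := by rw [← ev_mul', inv_mul_cancel, ev_one']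
  have h2 : (starRingEnd ℂ) (ev g χ) * ev g χ = 1 := by
    rw [Complex.conj_mul', ev_norm]; simp
  have h3 : ev g χ ≠ 0 := fun h => by
    have := ev_norm g χ
    rw [h] at this; simp at this
  exact mul_right_cancel₀ h3 (h1.trans h2.symm)

theorem ev_cont (g : A) : Continuous (ev g : PontryaginDual A → ℂ) := by
  have h1 : Continuous (fun χ : PontryaginDual A => (χ g : Circle)) :=
    (continuous_eval_const (F := C(A, Circle)) g).comp
      (ContinuousMonoidHom.isInducing_toContinuousMap A Circle).continuous
  exact continuous_induced_dom.comp h1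

/-- the embedding of `ℚ/ℤ` -/
noncomputable def qz : AddCircle (1 : ℚ) →+ Additive Circle :=
  QuotientAddGroup.lift (AddSubgroup.zmultiples (1 : ℚ))
    { toFun := fun q => Additive.ofMul (Circle.exp (2 * Real.pi * (q : ℝ)))
      map_zero' := by simp
      map_add' := fun x y => by
        rw [← ofMul_mul, ← Circle.exp_add]
        congr 2; push_cast; ring_nf }
    (by
      intro x hx
      obtain ⟨n, hn⟩ := AddSubgroup.mem_zmultiples_iff.1 hx
      rw [← hn]
      change Additive.ofMul (Circle.exp (2 * Real.pi * (((n • (1 : ℚ)) : ℚ) : ℝ))) = 0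
      have : Circle.exp (2 * Real.pi * (((n • (1 : ℚ)) : ℚ) : ℝ)) = 1 := by
        rw [Circle.exp_eq_one]
        exact ⟨n, by push_cast; simp; ring⟩
      rw [this]; rfl)

theorem qz_inj (x : AddCircle (1 : ℚ)) (h : qz x = 0) : x = 0 := by
  induction x using QuotientAddGroup.induction_on with
  | H q =>
    have h1 : Circle.exp (2 * Real.pi * (q : ℝ)) = 1 := h
    rw [Circle.exp_eq_one] at h1
    obtain ⟨n, hn⟩ := h1
    have hpi := Real.pi_pos
    have h2 : (q : ℝ) = n := by
      have h3 : 2 * Real.pi * (q : ℝ) = 2 * Real.pi * n := by rw [hn]; ring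
      exact mul_left_cancel₀ (by positivity) h3
    have h3 : q = n := by exact_mod_cast h2
    rw [AddCircle.coe_eq_zero_iff]
    exact ⟨n, by rw [h3]; simp⟩

theorem exists_ev_ne [DiscreteTopology A] {g : A} (hg : g ≠ 1) :
    ∃ χ : PontryaginDual A, ev g χ ≠ 1 := by
  have h1 : (Additive.ofMul g) ≠ 0 := by simpa using hg
  obtain ⟨c, hc⟩ := CharacterModule.exists_character_apply_ne_zero_of_ne_zero h1
  let φ : A →ₜ* Circle :=
    { toFun := fun x => Additive.toMul (qz (c (Additive.ofMul x)))
      map_one' := by
        have : c (Additive.ofMul (1 : A)) = 0 := map_zero c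
        rw [this, map_zero]; rfl
      map_mul' := fun x y => by
        have : c (Additive.ofMul (x * y)) = c (Additive.ofMul x) + c (Additive.ofMul y) :=
          map_add c _ _
        rw [this, map_add]; rfl
      continuous_toFun := continuous_of_discreteTopology }
  refine ⟨φ, fun h => hc ?_⟩
  apply qz_inj
  have h2 : ((Additive.toMul (qz (c (Additive.ofMul g))) : Circle) : ℂ) = 1 := h
  have h3 : Additive.toMul (qz (c (Additive.ofMul g))) = (1 : Circle) := by
    ext; rw [h2]; simp
  exact h3

end

end Pool.Agent.Y868.VR
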