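import Pool.Agent.Y868.VR.A1

/-! Project VR (helper868): orthogonality of the characters of a discrete abelian group. -/

set_option autoImplicit false

namespace Pool.Agent.Y868.VR

open Finset Filter Topology MeasureTheory

section

variable {A : Type} [CommGroup A] [TopologicalSpace A] [DiscreteTopology A]
  [MeasurableSpace (PontryaginDual A)] [BorelSpace (PontryaginDual A)]
  (μ : Measure (PontryaginDual A)) [μ.IsHaarMeasure] [IsProbabilityMeasure μ]

omit [DiscreteTopology A] [μ.IsHaarMeasure] in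
theorem int_of_cont {f : PontryaginDual A → ℂ} (hf : Continuous f) {C : ℝ} (hC : ∀ χ, ‖f χ‖ ≤ C) :
    Integrable f μ :=
  Integrable.of_bound hf.aestronglyMeasurable C (Eventually.of_forall hC)

open scoped Classical in
theorem int_ev (g : A) : ∫ χ, ev g χ ∂μ = if g = 1 then 1 else 0 := by
  split_ifs with h
  · subst h
    simp [ev_one]
  · obtain ⟨ψ, hψ⟩ := exists_ev_ne h
    have h1 : ∫ χ, ev g (ψ * χ) ∂μ = ∫ χ, ev g χ ∂μ := integral_mul_left_eq_self _ ψ
    simp only [ev_mul'] at h1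
    rw [integral_const_mul] at h1
    have h2 : (ev g ψ - 1) * ∫ χ, ev g χ ∂μ = 0 := by rw [sub_mul, h1]; ring
    rcases mul_eq_zero.1 h2 with h3 | h3
    · exact absurd (sub_eq_zero.1 h3) hψ
    · exact h3

omit [IsProbabilityMeasure μ] [DiscreteTopology A] in
theorem int_ev_sub (H : Subgroup (PontryaginDual A)) (hH : MeasurableSet (H : Set (PontryaginDual A)))
    (g : A) {ψ : PontryaginDual A} (hψ : ψ ∈ H) (hg : ev g ψ ≠ 1) :
    ∫ χ in (H : Set (PontryaginDual A)), ev g χ ∂μ = 0 := by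
  rw [← integral_indicator hH]
  have h1 : ∫ χ, (H : Set (PontryaginDual A)).indicator (ev g) (ψ * χ) ∂μ =
      ∫ χ, (H : Set (PontryaginDual A)).indicator (ev g) χ ∂μ := integral_mul_left_eq_self _ ψ
  have h2 : ∀ χ, (H : Set (PontryaginDual A)).indicator (ev g) (ψ * χ) =
      ev g ψ * (H : Set (PontryaginDual A)).indicator (ev g) χ := by
    intro χ
    by_cases hχ : χ ∈ H
    · rw [Set.indicator_of_mem (show χ ∈ (H : Set (PontryaginDual A)) from hχ),
        Set.indicator_of_mem (show ψ * χ ∈ (H : Set (PontryaginDual A)) from H.mul_mem hψ hχ),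
        ev_mul']
    · have : ψ * χ ∉ (H : Set (PontryaginDual A)) := by
        intro h3
        exact hχ ((H.mul_mem_cancel_left hψ).1 h3)
      rw [Set.indicator_of_notMem this,
        Set.indicator_of_notMem (show χ ∉ (H : Set (PontryaginDual A)) from hχ), mul_zero]
  simp only [h2] at h1
  rw [integral_const_mul] at h1
  have h3 : (ev g ψ - 1) * ∫ χ, (H : Set (PontryaginDual A)).indicator (ev g) χ ∂μ = 0 := by
    rw [sub_mul, h1]; ring
  rcases mul_eq_zero.1 h3 with h4 | h4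
  · exact absurd (sub_eq_zero.1 h4) hg
  · exact h4

open scoped Classical in
theorem count_eq (F : ℕ → A) (g : A) (N : ℕ) :
    (((Ioc 0 N).filter fun n => F n = g).card : ℂ) =
      ∫ χ, ev g⁻¹ χ * ∑ n ∈ Ioc 0 N, ev (F n) χ ∂μ := by
  have h1 : ∀ χ : PontryaginDual A, ev g⁻¹ χ * ∑ n ∈ Ioc 0 N, ev (F n) χ =
      ∑ n ∈ Ioc 0 N, ev (g⁻¹ * F n) χ := by
    intro χ
    rw [mul_sum]
    exact sum_congr rfl fun n _ => (ev_mul _ _ _).symm
  simp only [h1]
  rw [integral_finsetSum]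
  · simp only [int_ev]
    rw [← Finset.sum_filter, sum_const, nsmul_eq_mul, mul_one]
    congr 2
    ext n
    simp only [mem_filter]
    refine and_congr_right fun _ => ?_
    rw [inv_mul_eq_one, eq_comm]
  · intro n _
    exact int_of_cont μ (ev_cont _) (C := 1) fun χ => (ev_norm _ _).le

/-- the dominated convergence step -/
theorem dens_of_ae (F : ℕ → A) (g : A)
    (h : ∀ᵐ χ ∂μ, ∃ L : ℂ, Tendsto (fun N : ℕ => (∑ n ∈ Ioc 0 N, ev (F n) χ) / (N : ℂ)) atTop (𝓝 L)) :
    ∃ d : ℂ, Tendsto (fun N : ℕ => ((Nat.card {n : ℕ // 1 ≤ n ∧ n ≤ N ∧ F n = g} : ℂ) / (N : ℂ)))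
      atTop (𝓝 d) := by
  classical
  have h' : ∃ Lf : PontryaginDual A → ℂ, ∀ᵐ χ ∂μ,
      Tendsto (fun N : ℕ => (∑ n ∈ Ioc 0 N, ev (F n) χ) / (N : ℂ)) atTop (𝓝 (Lf χ)) := by
    refine ⟨fun χ => if hχ : ∃ L : ℂ, Tendsto (fun N : ℕ => (∑ n ∈ Ioc 0 N, ev (F n) χ) / (N : ℂ))
      atTop (𝓝 L) then hχ.choose else 0, ?_⟩
    filter_upwards [h] with χ hχ
    rw [dif_pos hχ]
    exact hχ.choose_spec
  obtain ⟨Lf, hL⟩ := h'
  refine ⟨∫ χ, ev g⁻¹ χ * Lf χ ∂μ, ?_⟩
  have h1 : Tendsto (fun N : ℕ => ∫ χ, ev g⁻¹ χ * ((∑ n ∈ Ioc 0 N, ev (F n) χ) / (N : ℂ)) ∂μ) atTop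
      (𝓝 (∫ χ, ev g⁻¹ χ * Lf χ ∂μ)) := by
    refine tendsto_integral_of_dominated_convergence (fun _ => (1 : ℝ)) ?_ (integrable_const _) ?_ ?_
    · intro N
      refine Continuous.aestronglyMeasurable ?_
      exact (ev_cont _).mul ((continuous_finsetSum _ fun n _ => ev_cont _).div_const _)
    · intro N
      refine Eventually.of_forall fun χ => ?_
      rw [norm_mul, ev_norm, one_mul, norm_div, Complex.norm_natCast]
      refine div_le_one_of_le₀ ?_ (Nat.cast_nonneg _)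
      refine (norm_sum_le _ _).trans ((sum_le_sum fun n _ => (ev_norm _ _).le).trans ?_)
      simp
    · filter_upwards [hL] with χ hχ
      exact hχ.const_mul _
  refine h1.congr fun N => ?_
  have e : Nat.card {n : ℕ // 1 ≤ n ∧ n ≤ N ∧ F n = g} = ((Ioc 0 N).filter fun n => F n = g).card := by
    refine Nat.subtype_card _ fun n => ?_
    rw [mem_filter, mem_Ioc, and_assoc]
    exact Iff.rfl
  rw [e, count_eq μ, ← integral_div]
  congr 1
  funext χ
  rw [mul_div_assoc]

end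

end Pool.Agent.Y868.VR
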