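import Pool.Agent.Y122.LT.LowC

/-! Project VR (helper868): from the mean over the scales to the mean value. -/

set_option autoImplicit false

namespace Pool.Agent.Y868.VR

open Finset Filter Topology MeasureTheory
open Pool.Agent.Y122.LT
open scoped ArithmeticFunction.vonMangoldt

theorem hyp_sum (f g : ℕ → ℂ) (N : ℕ) :
    ∑ n ∈ Icc 1 N, ∑ p ∈ n.divisorsAntidiagonal, f p.1 * g p.2 =
      ∑ d ∈ Icc 1 N, g d * ∑ m ∈ Icc 1 (N / d), f m := by
  have h : ∀ n ∈ Icc 1 N, ∑ p ∈ n.divisorsAntidiagonal, f p.1 * g p.2 =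
      ∑ d ∈ Icc 1 N, if d ∣ n then f (n / d) * g d else 0 := by
    intro n hn
    rw [mem_Icc] at hn
    rw [Nat.sum_divisorsAntidiagonal' (f := fun u v => f u * g v), ← sum_filter]
    refine sum_congr ?_ fun _ _ => rfl
    ext d
    rw [Nat.mem_divisors, mem_filter, mem_Icc]
    constructor
    · rintro ⟨h1, h2⟩
      exact ⟨⟨Nat.pos_of_dvd_of_pos h1 (by omega), (Nat.le_of_dvd (by omega) h1).trans hn.2⟩, h1⟩
    · rintro ⟨_, h2⟩
      exact ⟨h2, by omega⟩
  rw [sum_congr rfl h, sum_comm]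
  refine sum_congr rfl fun d hd => ?_
  rw [mem_Icc] at hd
  rw [← sum_filter, mul_sum]
  refine sum_nbij' (fun n => n / d) (fun m => m * d) ?_ ?_ ?_ ?_ ?_
  · intro n hn
    rw [mem_filter, mem_Icc] at hn
    rw [mem_Icc]
    exact ⟨Nat.div_pos (Nat.le_of_dvd (by omega) hn.2) (by omega), Nat.div_le_div_right hn.1.2⟩
  · intro m hm
    rw [mem_Icc] at hm
    rw [mem_filter, mem_Icc]
    refine ⟨⟨Nat.mul_pos (by omega) (by omega), ?_⟩, Dvd.intro_left m rfl⟩
    exact (Nat.mul_le_mul_right d hm.2).trans (Nat.div_mul_le_self N d)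
  · intro n hn
    rw [mem_filter] at hn
    exact Nat.div_mul_cancel hn.2
  · intro m hm
    exact Nat.mul_div_cancel m (by omega)
  · intro n hn
    ring

theorem S_al {a : ℕ → ℂ} (h : CMC a) (t : ℝ) :
    S (al a) t = ∑ d ∈ Icc 1 ⌊Real.exp t⌋₊, aL a d * S a (t - Real.log d) := by
  unfold S
  have h1 : ∀ n ∈ Icc 1 ⌊Real.exp t⌋₊, al a n = ∑ p ∈ n.divisorsAntidiagonal, a p.1 * aL a p.2 := by
    intro n _
    rw [al_conv h, LSeries.convolution_def]
  rw [sum_congr rfl h1, hyp_sum]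
  refine sum_congr rfl fun d hd => ?_
  rw [mem_Icc] at hd
  have hd0 : (0 : ℝ) < d := by exact_mod_cast hd.1
  rw [Real.exp_sub, Real.exp_log hd0, Nat.floor_div_natCast]

theorem S_diff {a : ℕ → ℂ} (ha : ∀ n, ‖a n‖ ≤ 1) {u v : ℝ} (huv : u ≤ v) :
    ‖S a u‖ ≤ ‖S a v‖ + (Real.exp v - Real.exp u + 1) := by
  have h1 : ⌊Real.exp u⌋₊ ≤ ⌊Real.exp v⌋₊ := Nat.floor_le_floor (Real.exp_le_exp.2 huv)
  have h2 : S a v = S a u + ∑ n ∈ Ioc ⌊Real.exp u⌋₊ ⌊Real.exp v⌋₊, a n := by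
    unfold S
    have e : ∀ N : ℕ, Icc 1 N = Ioc 0 N := fun N => rfl
    rw [e, e, ← Finset.sum_Ioc_consecutive _ (Nat.zero_le _) h1]
  have h3 : ‖∑ n ∈ Ioc ⌊Real.exp u⌋₊ ⌊Real.exp v⌋₊, a n‖ ≤ Real.exp v - Real.exp u + 1 := by
    refine (norm_sum_le _ _).trans ((sum_le_sum fun n _ => ha n).trans ?_)
    rw [sum_const, Nat.card_Ioc, nsmul_eq_mul, mul_one, Nat.cast_sub h1]
    have h4 := Nat.floor_le (Real.exp_pos v).le
    have h5 := Nat.lt_floor_add_one (Real.exp u)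
    linarith
  have h4 : S a u = S a v - ∑ n ∈ Ioc ⌊Real.exp u⌋₊ ⌊Real.exp v⌋₊, a n := by rw [h2]; ring
  rw [h4]
  exact (norm_sub_le _ _).trans (by linarith)

theorem m_slow {a : ℕ → ℂ} (ha : ∀ n, ‖a n‖ ≤ 1) {u v δ : ℝ} (hδ1 : δ ≤ 1) (huv : u ≤ v)
    (hv : v ≤ u + δ) : m a u ≤ m a v + (4 * δ + Real.exp (-u)) := by
  have h1 := S_diff ha huv
  have h2 := mul_le_mul_of_nonneg_right h1 (Real.exp_pos (-u)).le
  have e1 : ‖S a v‖ * Real.exp (-u) = m a v * Real.exp (v - u) := by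
    unfold m
    rw [mul_assoc, ← Real.exp_add]; congr 2; ring
  have e2 : Real.exp v * Real.exp (-u) = Real.exp (v - u) := by
    rw [← Real.exp_add]; congr 1
  have e3 : Real.exp u * Real.exp (-u) = 1 := by rw [← Real.exp_add]; simp
  have h3 : Real.exp (v - u) ≤ 1 + 2 * δ := by
    have h0 : |v - u| ≤ 1 := by rw [abs_of_nonneg (by linarith)]; linarith
    have h4 := (abs_le.1 (Real.abs_exp_sub_one_sub_id_le h0)).2
    have h5 : (v - u) ^ 2 ≤ δ := by
      have h6 : v - u ≤ δ := by linarith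
      have h7 : 0 ≤ v - u := by linarith
      have h8 : (v - u) * (v - u) ≤ δ * 1 := mul_le_mul h6 (by linarith) h7 (by linarith)
      rw [sq]; linarith
    linarith
  have h6 : m a v * Real.exp (v - u) ≤ m a v + 2 * δ := by
    have h7 : m a v * Real.exp (v - u) ≤ m a v * (1 + 2 * δ) :=
      mul_le_mul_of_nonneg_left h3 (m_nonneg a v)
    have h8 : m a v * (2 * δ) ≤ 1 * (2 * δ) :=
      mul_le_mul_of_nonneg_right (m_le ha v) (by linarith)
    linarith
  have h7 : (‖S a v‖ + (Real.exp v - Real.exp u + 1)) * Real.exp (-u) =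
      m a v * Real.exp (v - u) + (Real.exp (v - u) - 1 + Real.exp (-u)) := by
    rw [add_mul, e1, add_mul, sub_mul, e2, e3, one_mul]
  rw [h7] at h2
  have h8 : m a u = ‖S a u‖ * Real.exp (-u) := rfl
  rw [h8]
  linarith

theorem m_avg {a : ℕ → ℂ} (ha : ∀ n, ‖a n‖ ≤ 1) {u δ k : ℝ} (hδ : 0 < δ) (hδ1 : δ ≤ 1)
    (hk : k ≤ u) (hk1 : u ≤ k + 1) :
    m a u ≤ (1 / δ) * (∫ v in k..(k + 2), m a v) + (4 * δ + Real.exp (-k)) := by
  have h1 : ∫ v in u..(u + δ), (m a u : ℝ) ≤ ∫ v in u..(u + δ), (m a v + (4 * δ + Real.exp (-u))) := by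
    refine intervalIntegral.integral_mono_on (by linarith) intervalIntegrable_const
      ((m_ii ha _ _).add intervalIntegrable_const) fun v hv => ?_
    exact m_slow ha hδ1 hv.1 hv.2
  rw [intervalIntegral.integral_add (m_ii ha _ _) intervalIntegrable_const,
    intervalIntegral.integral_const, intervalIntegral.integral_const, smul_eq_mul, smul_eq_mul] at h1
  have h2 : ∫ v in u..(u + δ), m a v ≤ ∫ v in k..(k + 2), m a v := by
    refine intervalIntegral.integral_mono_interval hk (by linarith) (by linarith)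
      (Eventually.of_forall fun v => m_nonneg a v) (m_ii ha _ _)
  have h3 : Real.exp (-u) ≤ Real.exp (-k) := Real.exp_le_exp.2 (by linarith)
  have h4 : u + δ - u = δ := by ring
  rw [h4] at h1
  have h5 : m a u ≤ (1 / δ) * (∫ v in u..(u + δ), m a v) + (4 * δ + Real.exp (-u)) := by
    have h6 : δ * m a u ≤ δ * ((1 / δ) * (∫ v in u..(u + δ), m a v) + (4 * δ + Real.exp (-u))) := by
      rw [mul_add, ← mul_assoc, mul_one_div_cancel hδ.ne', one_mul]
      exact h1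
    exact le_of_mul_le_mul_left h6 hδ
  have h6 : (1 / δ) * (∫ v in u..(u + δ), m a v) ≤ (1 / δ) * (∫ v in k..(k + 2), m a v) :=
    mul_le_mul_of_nonneg_left h2 (by positivity)
  linarith

theorem m_point {a : ℕ → ℂ} (h : CMC a) {t δ : ℝ} (ht : 0 ≤ t) (hδ : 0 < δ) (hδ1 : δ ≤ 1) :
    t * m a t ≤ 1 + Real.exp 1 * CC * ((2 / δ) * (∫ v in (0 : ℝ)..(t + 2), m a v) +
      4 * δ * (t + 1) + 2) := by
  have ha := h.bdd
  have h1 := log_cmp ha ht
  set N := ⌊Real.exp t⌋₊ with hN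
  set Kk : ℕ := ⌊t⌋₊ + 1 with hKk
  set M : ℕ → ℝ := fun k => (1 / δ) * (∫ v in (k : ℝ)..((k : ℝ) + 2), m a v) +
    (4 * δ + Real.exp (-(k : ℝ))) with hM
  have hM0 : ∀ k, 0 ≤ M k := by
    intro k
    have : 0 ≤ ∫ v in (k : ℝ)..((k : ℝ) + 2), m a v :=
      intervalIntegral.integral_nonneg (by linarith) fun v _ => m_nonneg a v
    simp only [hM]; positivity
  have h2 : ‖S (al a) t‖ * Real.exp (-t) ≤ ∑ d ∈ Icc 1 N, Λ d / d * m a (t - Real.log d) := by
    rw [S_al h, ← hN]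
    have h3 : ‖∑ d ∈ Icc 1 N, aL a d * S a (t - Real.log d)‖ ≤
        ∑ d ∈ Icc 1 N, Λ d * ‖S a (t - Real.log d)‖ := by
      refine (norm_sum_le _ _).trans (sum_le_sum fun d _ => ?_)
      rw [norm_mul, aL, norm_mul, Complex.norm_real,
        Real.norm_of_nonneg ArithmeticFunction.vonMangoldt_nonneg]
      refine mul_le_mul_of_nonneg_right ?_ (norm_nonneg _)
      have := mul_le_mul_of_nonneg_right (ha d)
        (ArithmeticFunction.vonMangoldt_nonneg (n := d))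
      linarith
    refine (mul_le_mul_of_nonneg_right h3 (Real.exp_pos _).le).trans (le_of_eq ?_)
    rw [sum_mul]
    refine sum_congr rfl fun d hd => ?_
    rw [mem_Icc] at hd
    have hd0 : (0 : ℝ) < d := by exact_mod_cast hd.1
    unfold m
    have e : Real.exp (-(t - Real.log d)) = Real.exp (-t) * d := by
      rw [show -(t - Real.log d) = -t + Real.log d by ring, Real.exp_add, Real.exp_log hd0]
    rw [e]; field_simp
  have hlog : ∀ d ∈ Icc 1 N, 0 ≤ t - Real.log d := by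
    intro d hd
    rw [mem_Icc] at hd
    have hd0 : (0 : ℝ) < d := by exact_mod_cast hd.1
    have h5 : (d : ℝ) ≤ Real.exp t := (Nat.le_floor_iff (Real.exp_pos t).le).mp hd.2
    have := (Real.log_le_iff_le_exp hd0).2 h5
    linarith
  have h3 : ∑ d ∈ Icc 1 N, Λ d / d * m a (t - Real.log d) ≤
      ∑ d ∈ Icc 1 N, Λ d / d * M ⌊t - Real.log d⌋₊ := by
    refine sum_le_sum fun d hd => ?_
    have hd' := hlog d hd
    refine mul_le_mul_of_nonneg_left ?_ (div_nonneg ArithmeticFunction.vonMangoldt_nonneg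
      (Nat.cast_nonneg _))
    exact m_avg ha hδ hδ1 (Nat.floor_le hd') (Nat.lt_floor_add_one _).le
  have hmaps : ∀ d ∈ Icc 1 N, ⌊t - Real.log d⌋₊ ∈ range Kk := by
    intro d hd
    have hd' := hd
    rw [mem_Icc] at hd'
    rw [mem_range, hKk, Nat.lt_add_one_iff]
    refine Nat.floor_le_floor ?_
    have : 0 ≤ Real.log d := Real.log_nonneg (by exact_mod_cast hd'.1)
    linarith
  have h4 : ∑ d ∈ Icc 1 N, Λ d / d * M ⌊t - Real.log d⌋₊ ≤
      ∑ k ∈ range Kk, Real.exp 1 * CC * M k := by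
    rw [← sum_fiberwise_of_maps_to hmaps]
    refine sum_le_sum fun k hk => ?_
    have h5 : ∑ d ∈ (Icc 1 N).filter (fun d : ℕ => ⌊t - Real.log (d : ℝ)⌋₊ = k), Λ d / d * M ⌊t - Real.log d⌋₊ =
        (∑ d ∈ (Icc 1 N).filter (fun d : ℕ => ⌊t - Real.log (d : ℝ)⌋₊ = k), Λ d / d) * M k := by
      rw [sum_mul]
      refine sum_congr rfl fun d hd => ?_
      rw [(mem_filter.1 hd).2]
    rw [h5]
    refine mul_le_mul_of_nonneg_right ?_ (hM0 k)
    have h6 : ∑ d ∈ (Icc 1 N).filter (fun d : ℕ => ⌊t - Real.log (d : ℝ)⌋₊ = k), Λ d / d ≤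
        ∑ d ∈ (Icc 1 N).filter (fun d : ℕ => ⌊t - Real.log (d : ℝ)⌋₊ = k), Λ d * Real.exp (-(t - k - 1)) := by
      refine sum_le_sum fun d hd => ?_
      rw [mem_filter] at hd
      have hd1 := (mem_Icc.1 hd.1)
      have hd0 : (0 : ℝ) < d := by exact_mod_cast hd1.1
      have h7 := Nat.lt_floor_add_one (t - Real.log d)
      rw [hd.2] at h7
      rw [div_eq_mul_inv]
      refine mul_le_mul_of_nonneg_left ?_ ArithmeticFunction.vonMangoldt_nonneg
      have h8 : Real.exp (t - k - 1) ≤ d := by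
        rw [← Real.le_log_iff_exp_le hd0]; linarith
      rw [Real.exp_neg]
      exact inv_anti₀ (Real.exp_pos _) h8
    refine h6.trans ?_
    rw [← sum_mul]
    have h7 : ∑ d ∈ (Icc 1 N).filter (fun d : ℕ => ⌊t - Real.log (d : ℝ)⌋₊ = k), Λ d ≤
        Chebyshev.psi (Real.exp (t - k)) := by
      rw [Chebyshev.psi]
      refine sum_le_sum_of_subset_of_nonneg ?_ fun _ _ _ => ArithmeticFunction.vonMangoldt_nonneg
      intro d hd
      have hd' := hd
      rw [mem_filter] at hd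
      have hd1 := (mem_Icc.1 hd.1)
      have hd0 : (0 : ℝ) < d := by exact_mod_cast hd1.1
      have h8 := Nat.floor_le (hlog d hd.1)
      rw [hd.2] at h8
      rw [mem_Ioc]
      refine ⟨by omega, Nat.le_floor ?_⟩
      rw [← Real.log_le_iff_le_exp hd0]; linarith
    have h8 : Chebyshev.psi (Real.exp (t - k)) ≤ CC * Real.exp (t - k) :=
      Chebyshev.psi_le_const_mul_self (Real.exp_pos _).le
    calc _ ≤ (CC * Real.exp (t - k)) * Real.exp (-(t - k - 1)) :=
          mul_le_mul_of_nonneg_right (h7.trans h8) (Real.exp_pos _).le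
      _ = CC * (Real.exp (t - k) * Real.exp (-(t - k - 1))) := by ring
      _ = CC * Real.exp 1 := by rw [← Real.exp_add]; congr 2; ring
      _ = _ := by ring
  have hE : 0 ≤ Real.exp 1 * CC := mul_nonneg (Real.exp_pos _).le CC_pos.le
  have h5 : ∑ k ∈ range Kk, Real.exp 1 * CC * M k = Real.exp 1 * CC * ∑ k ∈ range Kk, M k := by
    rw [mul_sum]
  have hKt : (Kk : ℝ) ≤ t + 1 := by
    rw [hKk]; push_cast
    have := Nat.floor_le ht
    linarith
  have h6 : ∑ k ∈ range Kk, M k ≤ (2 / δ) * (∫ v in (0 : ℝ)..(t + 2), m a v) +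
      4 * δ * (t + 1) + 2 := by
    have e1 : ∀ k : ℕ, ∫ v in (k : ℝ)..((k : ℝ) + 2), m a v =
        (∫ v in (k : ℝ)..((k + 1 : ℕ) : ℝ), m a v) +
        ∫ v in ((k + 1 : ℕ) : ℝ)..(((k + 1) + 1 : ℕ) : ℝ), m a v := by
      intro k
      rw [intervalIntegral.integral_add_adjacent_intervals (m_ii ha _ _) (m_ii ha _ _)]
      congr 1; push_cast; ring
    have e2 : ∑ k ∈ range Kk, ∫ v in (k : ℝ)..((k + 1 : ℕ) : ℝ), m a v =
        ∫ v in (0 : ℝ)..(Kk : ℝ), m a v := by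
      have := intervalIntegral.sum_integral_adjacent_intervals (f := m a) (μ := volume)
        (a := fun k : ℕ => (k : ℝ)) (n := Kk) (fun k _ => m_ii ha _ _)
      simpa using this
    have e3 : ∑ k ∈ range Kk, ∫ v in ((k + 1 : ℕ) : ℝ)..(((k + 1) + 1 : ℕ) : ℝ), m a v =
        ∫ v in (1 : ℝ)..((Kk + 1 : ℕ) : ℝ), m a v := by
      have := intervalIntegral.sum_integral_adjacent_intervals (f := m a) (μ := volume)
        (a := fun k : ℕ => ((k + 1 : ℕ) : ℝ)) (n := Kk) (fun k _ => m_ii ha _ _)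
      simpa using this
    have b2 : ∫ v in (0 : ℝ)..(Kk : ℝ), m a v ≤ ∫ v in (0 : ℝ)..(t + 2), m a v :=
      intervalIntegral.integral_mono_interval le_rfl (by positivity) (by linarith)
        (Eventually.of_forall fun v => m_nonneg a v) (m_ii ha _ _)
    have b3 : ∫ v in (1 : ℝ)..((Kk + 1 : ℕ) : ℝ), m a v ≤ ∫ v in (0 : ℝ)..(t + 2), m a v :=
      intervalIntegral.integral_mono_interval (by norm_num) (by push_cast; linarith [(Nat.cast_nonneg Kk : (0 : ℝ) ≤ Kk)])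
        (by push_cast; linarith)
        (Eventually.of_forall fun v => m_nonneg a v) (m_ii ha _ _)
    have e4 : ∑ k ∈ range Kk, Real.exp (-(k : ℝ)) ≤ 2 := by
      refine le_trans (sum_le_sum fun k _ => ?_) (sum_geometric_two_le Kk)
      rw [Real.exp_neg, one_div, inv_pow]
      refine inv_anti₀ (by positivity) ?_
      have h9 : (2 : ℝ) ≤ Real.exp 1 := by
        have := Real.add_one_le_exp (1 : ℝ); linarith
      calc (2 : ℝ) ^ k ≤ (Real.exp 1) ^ k := pow_le_pow_left₀ (by norm_num) h9 k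
        _ = Real.exp k := by rw [← Real.exp_nat_mul]; simp
    have e5 : ∑ k ∈ range Kk, M k = (1 / δ) * ((∫ v in (0 : ℝ)..(Kk : ℝ), m a v) +
        ∫ v in (1 : ℝ)..((Kk + 1 : ℕ) : ℝ), m a v) + (Kk * (4 * δ) +
          ∑ k ∈ range Kk, Real.exp (-(k : ℝ))) := by
      simp only [hM]
      rw [sum_add_distrib, ← mul_sum, sum_congr rfl fun k _ => e1 k, sum_add_distrib, e2, e3,
        sum_add_distrib, sum_const, card_range, nsmul_eq_mul]
    rw [e5]
    have b4 : (1 / δ) * ((∫ v in (0 : ℝ)..(Kk : ℝ), m a v) +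
        ∫ v in (1 : ℝ)..((Kk + 1 : ℕ) : ℝ), m a v) ≤
        (1 / δ) * ((∫ v in (0 : ℝ)..(t + 2), m a v) + ∫ v in (0 : ℝ)..(t + 2), m a v) :=
      mul_le_mul_of_nonneg_left (add_le_add b2 b3) (by positivity)
    have b5 : (Kk : ℝ) * (4 * δ) ≤ (t + 1) * (4 * δ) :=
      mul_le_mul_of_nonneg_right hKt (by positivity)
    have e6 : (1 / δ) * ((∫ v in (0 : ℝ)..(t + 2), m a v) + ∫ v in (0 : ℝ)..(t + 2), m a v) =
        (2 / δ) * ∫ v in (0 : ℝ)..(t + 2), m a v := by ring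
    rw [e6] at b4
    linarith
  have h7 := mul_le_mul_of_nonneg_left h6 hE
  linarith [h2.trans (h3.trans (h4.trans (h5.le.trans h7)))]

theorem m_tendsto {a : ℕ → ℂ} (h : CMC a) (hF : HF a) (ε : ℝ) (hε : 0 < ε) :
    ∃ T₁ : ℝ, 0 < T₁ ∧ ∀ t : ℝ, T₁ ≤ t → m a t ≤ ε := by
  set E : ℝ := Real.exp 1 * CC with hE
  have hE0 : 0 < E := mul_pos (Real.exp_pos _) CC_pos
  set δ : ℝ := min 1 (ε / (32 * E)) with hδ
  have hδ0 : 0 < δ := lt_min one_pos (by positivity)
  have hδ1 : δ ≤ 1 := min_le_left _ _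
  have hδE : E * δ ≤ ε / 32 := by
    have h1 : δ ≤ ε / (32 * E) := min_le_right _ _
    calc E * δ ≤ E * (ε / (32 * E)) := mul_le_mul_of_nonneg_left h1 hE0.le
      _ = ε / 32 := by field_simp
  obtain ⟨T₀, hT₀, h2⟩ := mean_m h hF (ε * δ / (32 * E)) (by positivity)
  refine ⟨max T₀ (4 * (1 + 2 * E) / ε), lt_max_of_lt_left (by linarith), fun t ht => ?_⟩
  have ht1 : T₀ ≤ t := (le_max_left _ _).trans ht
  have ht2 : 4 * (1 + 2 * E) / ε ≤ t := (le_max_right _ _).trans ht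
  have ht0 : 1 ≤ t := hT₀.trans ht1
  have h3 := m_point h (t := t) (by linarith) hδ0 hδ1
  rw [← hE] at h3
  have h4 := h2 (t + 2) (by linarith)
  have h5 : (2 / δ) * (∫ v in (0 : ℝ)..(t + 2), m a v) ≤ (2 / δ) * (ε * δ / (32 * E) * (t + 2)) :=
    mul_le_mul_of_nonneg_left h4 (by positivity)
  have e5 : E * ((2 / δ) * (ε * δ / (32 * E) * (t + 2))) = ε / 16 * (t + 2) := by
    field_simp; ring
  have h6 : E * ((2 / δ) * (∫ v in (0 : ℝ)..(t + 2), m a v)) ≤ ε / 16 * (t + 2) := by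
    rw [← e5]; exact mul_le_mul_of_nonneg_left h5 hE0.le
  have h7 : E * (4 * δ * (t + 1)) ≤ ε / 8 * (t + 1) := by
    have : E * (4 * δ * (t + 1)) = (E * δ) * (4 * (t + 1)) := by ring
    rw [this]
    calc _ ≤ ε / 32 * (4 * (t + 1)) := mul_le_mul_of_nonneg_right hδE (by linarith)
      _ = _ := by ring
  have h8 : 4 * (1 + 2 * E) ≤ t * ε := by rwa [div_le_iff₀ hε] at ht2
  have h9 : t * m a t ≤ t * ε := by
    have e9 : E * ((2 / δ) * (∫ v in (0 : ℝ)..(t + 2), m a v) + 4 * δ * (t + 1) + 2) =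
      E * ((2 / δ) * (∫ v in (0 : ℝ)..(t + 2), m a v)) + E * (4 * δ * (t + 1)) + 2 * E := by ring
    rw [e9] at h3
    have h10 : ε ≤ t * ε := by
      have := mul_le_mul_of_nonneg_right ht0 hε.le
      linarith
    linarith
  exact le_of_mul_le_mul_left h9 (by linarith)

/-- the mean value vanishes -/
theorem mean0 {a : ℕ → ℂ} (h : CMC a) (hF : HF a) :
    Tendsto (fun N : ℕ => (∑ n ∈ Icc 1 N, a n) / (N : ℂ)) atTop (𝓝 0) := by
  rw [Metric.tendsto_atTop]
  intro ε hε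
  obtain ⟨T₁, hT₁, h1⟩ := m_tendsto h hF (ε / 2) (by positivity)
  refine ⟨⌈Real.exp T₁⌉₊ + 1, fun N hN => ?_⟩
  have hN0 : 0 < N := by omega
  have hNr : (0 : ℝ) < N := by exact_mod_cast hN0
  have h2 : T₁ ≤ Real.log N := by
    rw [Real.le_log_iff_exp_le hNr]
    exact (Nat.le_ceil _).trans (by exact_mod_cast (by omega : ⌈Real.exp T₁⌉₊ ≤ N))
  have h3 := h1 _ h2
  have h4 : m a (Real.log N) = ‖(∑ n ∈ Icc 1 N, a n) / (N : ℂ)‖ := by
    unfold m S
    rw [Real.exp_log hNr, Nat.floor_natCast, norm_div, Real.exp_neg, Real.exp_log hNr,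
      Complex.norm_natCast]
    rfl
  rw [dist_zero_right, ← h4]
  linarith

end Pool.Agent.Y868.VR
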