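import Mathlib

/-! Project VR (helper868): convolutions with absolutely summable functions, and the factorisation
of multiplicative functions. -/

set_option autoImplicit false

namespace Pool.Agent.Y868.VR

open Finset Filter Topology
open ArithmeticFunction

theorem sum_le_nat (f : ArithmeticFunction ℂ) (hf : ∀ n, ‖f n‖ ≤ 1) (N : ℕ) :
    ‖∑ n ∈ Ioc 0 N, f n‖ ≤ N := by
  refine (norm_sum_le _ _).trans ((sum_le_sum fun n _ => hf n).trans ?_)
  simp

theorem conv_mean (h a : ArithmeticFunction ℂ) (ha : ∀ n, ‖a n‖ ≤ 1)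
    (hs : Summable (fun d : ℕ => ‖h d‖ / d)) (L : ℂ)
    (hL : Tendsto (fun N : ℕ => (∑ n ∈ Ioc 0 N, a n) / (N : ℂ)) atTop (𝓝 L)) :
    Tendsto (fun N : ℕ => (∑ n ∈ Ioc 0 N, (h * a) n) / (N : ℂ)) atTop
      (𝓝 (∑' d : ℕ, h d * (L / d))) := by
  have h1 : Tendsto (fun N : ℕ => ∑' d : ℕ, h d * ((∑ n ∈ Ioc 0 (N / d), a n) / (N : ℂ))) atTop
      (𝓝 (∑' d : ℕ, h d * (L / d))) := by
    refine tendsto_tsum_of_dominated_convergence (bound := fun d : ℕ => ‖h d‖ / d) hs ?_ ?_
    · intro d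
      rcases Nat.eq_zero_or_pos d with hd | hd
      · subst hd; simp
      refine Tendsto.const_mul _ ?_
      have h2 : Tendsto (fun N : ℕ => N / d) atTop atTop := Nat.tendsto_div_const_atTop hd.ne'
      have h3 := hL.comp h2
      have h4 : Tendsto (fun N : ℕ => (((N / d : ℕ) : ℝ) / (N : ℝ))) atTop (𝓝 (1 / (d : ℝ))) := by
        have h5 := (tendsto_nat_floor_mul_div_atTop (R := ℝ) (a := 1 / (d : ℝ)) (by positivity)).comp
          (tendsto_natCast_atTop_atTop (R := ℝ))
        refine h5.congr fun N => ?_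
        simp only [Function.comp_def]
        rw [one_div, mul_comm, ← div_eq_mul_inv, Nat.floor_div_eq_div]
      have h5 : Tendsto (fun N : ℕ => ((((N / d : ℕ) : ℝ) / (N : ℝ) : ℝ) : ℂ)) atTop
          (𝓝 ((1 / (d : ℝ) : ℝ) : ℂ)) := (Complex.continuous_ofReal.tendsto _).comp h4
      have h6 := h3.mul h5
      have e : L * ((1 / (d : ℝ) : ℝ) : ℂ) = L / d := by push_cast; ring
      rw [e] at h6
      refine h6.congr' ?_
      filter_upwards [eventually_ge_atTop d] with N hN
      simp only [Function.comp_def]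
      have hNd : 0 < N / d := Nat.div_pos hN hd
      have h7 : ((N / d : ℕ) : ℂ) ≠ 0 := by exact_mod_cast hNd.ne'
      have h8 : (N : ℂ) ≠ 0 := by
        have : 0 < N := by omega
        exact_mod_cast this.ne'
      push_cast
      field_simp
    · filter_upwards [eventually_ge_atTop 1] with N hN d
      have hN' : (0 : ℝ) < N := by exact_mod_cast hN
      rw [norm_mul, norm_div, Complex.norm_natCast, div_eq_mul_inv ‖h d‖]
      refine mul_le_mul_of_nonneg_left ?_ (norm_nonneg _)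
      rcases Nat.eq_zero_or_pos d with hd | hd
      · subst hd; simp
      rw [div_le_iff₀ hN']
      refine (sum_le_nat a ha _).trans ?_
      refine (Nat.cast_div_le).trans (le_of_eq ?_)
      rw [div_eq_mul_inv, mul_comm]
  refine h1.congr fun N => ?_
  rw [sum_Ioc_mul_eq_sum_sum, sum_div, tsum_eq_sum (s := Ioc 0 N)]
  · refine sum_congr rfl fun d _ => ?_
    rw [mul_div_assoc]
  · intro d hd
    rw [mem_Ioc] at hd
    rcases Nat.eq_zero_or_pos d with h0 | h0
    · subst h0; simp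
    · have : N / d = 0 := Nat.div_eq_of_lt (by omega)
      rw [this]; simp

/-- the completely multiplicative function with the same values at the primes -/
noncomputable def cm (b : ℕ → ℂ) : ArithmeticFunction ℂ :=
  ⟨fun n => if n = 0 then 0 else n.factorization.prod (fun p k => b p ^ k), by simp⟩

theorem cm_apply (b : ℕ → ℂ) {n : ℕ} (hn : n ≠ 0) :
    cm b n = n.factorization.prod (fun p k => b p ^ k) := by
  change (if n = 0 then 0 else n.factorization.prod (fun p k => b p ^ k)) = _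
  rw [if_neg hn]

theorem cm_one (b : ℕ → ℂ) : cm b 1 = 1 := by
  rw [cm_apply b one_ne_zero]; simp

theorem cm_mul (b : ℕ → ℂ) (m n : ℕ) : cm b (m * n) = cm b m * cm b n := by
  rcases eq_or_ne m 0 with hm | hm
  · subst hm; simp
  rcases eq_or_ne n 0 with hn | hn
  · subst hn; simp
  rw [cm_apply b (mul_ne_zero hm hn), cm_apply b hm, cm_apply b hn, Nat.factorization_mul hm hn,
    Finsupp.prod_add_index']
  · intro p; simp
  · intro p i j; rw [pow_add]

theorem cm_prime (b : ℕ → ℂ) {p : ℕ} (hp : p.Prime) : cm b p = b p := by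
  rw [cm_apply b hp.ne_zero, hp.factorization, Finsupp.prod_single_index]
  · simp
  · simp

theorem cm_bdd {b : ℕ → ℂ} (hb : ∀ n, ‖b n‖ ≤ 1) (n : ℕ) : ‖cm b n‖ ≤ 1 := by
  rcases eq_or_ne n 0 with hn | hn
  · subst hn; simp
  rw [cm_apply b hn, Finsupp.prod, norm_prod]
  refine Finset.prod_le_one (fun _ _ => norm_nonneg _) fun p _ => ?_
  rw [norm_pow]
  exact pow_le_one₀ (norm_nonneg _) (hb p)

/-- completely multiplicative arithmetic functions -/
structure CMA (a : ArithmeticFunction ℂ) : Prop where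
  one : a 1 = 1
  mul : ∀ m n, a (m * n) = a m * a n
  bdd : ∀ n, ‖a n‖ ≤ 1

theorem cm_cma {b : ℕ → ℂ} (hb : ∀ n, ‖b n‖ ≤ 1) : CMA (cm b) := ⟨cm_one b, cm_mul b, cm_bdd hb⟩

/-- the twisted Moebius function -/
noncomputable def mua (a : ArithmeticFunction ℂ) : ArithmeticFunction ℂ :=
  pmul (moebius : ArithmeticFunction ℂ) a

theorem mua_apply (a : ArithmeticFunction ℂ) (n : ℕ) : mua a n = (moebius n : ℂ) * a n := by
  simp [mua, pmul_apply]

theorem CMA.mult {a : ArithmeticFunction ℂ} (h : CMA a) : a.IsMultiplicative :=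
  ⟨h.one, fun {m n} _ => h.mul m n⟩

theorem mua_mult {a : ArithmeticFunction ℂ} (h : CMA a) : (mua a).IsMultiplicative := by
  unfold mua
  refine IsMultiplicative.pmul ?_ h.mult
  exact isMultiplicative_moebius.intCast

theorem mua_mul {a : ArithmeticFunction ℂ} (h : CMA a) : mua a * a = 1 := by
  ext n
  rw [mul_apply]
  rcases eq_or_ne n 0 with hn | hn
  · subst hn; simp
  have h1 : ∀ p ∈ n.divisorsAntidiagonal, mua a p.1 * a p.2 = (moebius p.1 : ℂ) * a n := by
    intro p hp
    rw [mua_apply, mul_assoc, ← h.mul, (Nat.mem_divisorsAntidiagonal.mp hp).1]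
  rw [sum_congr rfl h1, ← sum_mul]
  have h2 : ∑ p ∈ n.divisorsAntidiagonal, (moebius p.1 : ℂ) = (1 : ArithmeticFunction ℂ) n := by
    have h3 : ((moebius : ArithmeticFunction ℂ) * (zeta : ArithmeticFunction ℂ)) n =
        (1 : ArithmeticFunction ℂ) n := by rw [coe_moebius_mul_coe_zeta]
    rw [← h3, mul_apply]
    refine sum_congr rfl fun p hp => ?_
    have hp2 : p.2 ≠ 0 := by
      intro h0
      have := (Nat.mem_divisorsAntidiagonal.mp hp)
      rw [h0, mul_zero] at this
      exact this.2 this.1.symm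
    simp [natCoe_apply, zeta_apply, hp2]
  rw [h2]
  rcases eq_or_ne n 1 with h4 | h4
  · subst h4; simp [h.one]
  · simp [one_apply_ne h4]

/-- the quotient -/
noncomputable def quo (b a : ArithmeticFunction ℂ) : ArithmeticFunction ℂ := b * mua a

theorem quo_mul {b a : ArithmeticFunction ℂ} (h : CMA a) : quo b a * a = b := by
  rw [quo, mul_assoc, mua_mul h, mul_one]

theorem quo_mult {b a : ArithmeticFunction ℂ} (hb : b.IsMultiplicative) (h : CMA a) :
    (quo b a).IsMultiplicative := hb.mul (mua_mult h)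

theorem quo_pp {b a : ArithmeticFunction ℂ} (h : CMA a) {p : ℕ} (hp : p.Prime) (k : ℕ) :
    quo b a (p ^ (k + 1)) = b (p ^ (k + 1)) - b (p ^ k) * a p := by
  rw [quo, mul_apply, Nat.sum_divisorsAntidiagonal' (f := fun u v => b u * mua a v),
    Nat.divisors_prime_pow hp, sum_map, Finset.range_eq_Ico,
    Finset.sum_eq_sum_Ico_succ_bot (by omega), Finset.sum_eq_sum_Ico_succ_bot (by omega)]
  have h0 : ∑ x ∈ Ico (0 + 1 + 1) (k + 1 + 1),
      b (p ^ (k + 1) / (⟨(p ^ ·), Nat.pow_right_injective hp.two_le⟩ : ℕ ↪ ℕ) x) *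
        mua a ((⟨(p ^ ·), Nat.pow_right_injective hp.two_le⟩ : ℕ ↪ ℕ) x) = 0 := by
    refine sum_eq_zero fun x hx => ?_
    rw [mem_Ico] at hx
    have : moebius (p ^ x) = 0 := by
      rw [moebius_apply_prime_pow hp (by omega), if_neg (by omega)]
    simp [mua_apply, this]
  rw [h0]
  have e1 : p ^ (k + 1) / p = p ^ k := by rw [pow_succ, Nat.mul_div_cancel _ hp.pos]
  simp [mua_apply, h.one, e1, moebius_apply_prime hp]
  ring

theorem quo_pp_le {b a : ArithmeticFunction ℂ} (hb : ∀ n, ‖b n‖ ≤ 1) (h : CMA a) {p : ℕ}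
    (hp : p.Prime) (k : ℕ) : ‖quo b a (p ^ (k + 1))‖ ≤ 2 := by
  rw [quo_pp h hp]
  refine (norm_sub_le _ _).trans ?_
  rw [norm_mul]
  have h1 := hb (p ^ (k + 1))
  have h2 : ‖b (p ^ k)‖ * ‖a p‖ ≤ 1 * 1 :=
    mul_le_mul (hb _) (h.bdd p) (norm_nonneg _) zero_le_one
  linarith

/-- summability of a nonnegative multiplicative function from its local sums -/
theorem summ_mult (u : ℕ → ℝ) (h0 : ∀ n, 0 ≤ u n) (h1 : u 1 = 1) (hz : u 0 = 0)
    (hm : ∀ m n : ℕ, Nat.Coprime m n → u (m * n) = u m * u n)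
    (hs : ∀ p : ℕ, p.Prime → Summable (fun k : ℕ => u (p ^ k)))
    (c : ℕ → ℝ) (hc0 : ∀ p, 0 ≤ c p) (hc : Summable c)
    (hu : ∀ p : ℕ, p.Prime → ∑' k : ℕ, u (p ^ k) ≤ 1 + c p) : Summable u := by
  refine summable_of_sum_range_le (c := Real.exp (∑' p, c p)) h0 fun N => ?_
  obtain ⟨h2, h3⟩ := EulerProduct.summable_and_hasSum_smoothNumbers_prod_primesBelow_tsum
    (f := u) h1 (fun {m n} h => hm m n h) (fun {p} hp => (hs p hp).norm) N
  have h4 : ∑ n ∈ range N, u n ≤ ∑' m : N.smoothNumbers, u m := by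
    have h5 : Summable (fun m : N.smoothNumbers => u m) := h3.summable
    have h6 : ∑ n ∈ range N, u n = ∑ n ∈ (Ico 1 N).subtype (fun n => n ∈ N.smoothNumbers), u n := by
      rw [Finset.sum_subtype_eq_sum_filter]
      rcases Nat.eq_zero_or_pos N with hN | hN
      · subst hN; simp
      rw [Finset.range_eq_Ico, Finset.sum_eq_sum_Ico_succ_bot hN, hz, zero_add]
      symm
      refine sum_congr ?_ fun _ _ => rfl
      ext n
      simp only [mem_filter, mem_Ico]
      constructor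
      · intro h; exact h.1
      · intro h
        refine ⟨h, Nat.mem_smoothNumbers_of_lt (by omega) h.2⟩
    rw [h6]
    exact h5.sum_le_tsum _ fun _ _ => h0 _
  rw [h3.tsum_eq] at h4
  refine h4.trans ?_
  have h5 : ∏ p ∈ N.primesBelow, ∑' n : ℕ, u (p ^ n) ≤ ∏ p ∈ N.primesBelow, Real.exp (c p) := by
    refine prod_le_prod (fun p _ => tsum_nonneg fun _ => h0 _) fun p hp => ?_
    refine (hu p (Nat.prime_of_mem_primesBelow hp)).trans ?_
    have := Real.add_one_le_exp (c p)
    linarith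
  refine h5.trans ?_
  rw [← Real.exp_sum]
  exact Real.exp_le_exp.2 (hc.sum_le_tsum _ fun _ _ => hc0 _)

theorem geo_tail {p : ℕ} (hp : p.Prime) :
    HasSum (fun k : ℕ => 2 / ((p : ℝ) ^ (k + 2))) (2 / ((p : ℝ) * (p - 1))) := by
  have hp1 : (1 : ℝ) < p := by exact_mod_cast hp.one_lt
  have h1 := hasSum_geometric_of_lt_one (r := 1 / (p : ℝ)) (by positivity)
    (by rw [div_lt_one (by linarith)]; exact hp1)
  have h2 := h1.mul_left (2 / (p : ℝ) ^ 2)
  have e : 2 / (p : ℝ) ^ 2 * (1 - 1 / (p : ℝ))⁻¹ = 2 / ((p : ℝ) * (p - 1)) := by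
    have : (p : ℝ) - 1 ≠ 0 := by linarith
    have h3 : (1 : ℝ) - 1 / p = (p - 1) / p := by field_simp
    rw [h3]; field_simp
  rw [e] at h2
  refine h2.congr_fun ?_ |> fun h => h
  intro k
  rw [one_div, inv_pow, pow_add]
  field_simp

end Pool.Agent.Y868.VR
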