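import Pool.Agent.Y868.VR.H1
import Pool.Agent.Y868.VR.H2
import Pool.Agent.Y868.VR.H3

/-! Project VR (helper868): mean values of bounded multiplicative functions. -/

set_option autoImplicit false

namespace Pool.Agent.Y868.VR

open Finset Filter Topology
open ArithmeticFunction

/-- multiplicative functions bounded by one -/
structure MB (b : ArithmeticFunction ℂ) : Prop where
  mult : b.IsMultiplicative
  bdd : ∀ n, ‖b n‖ ≤ 1

open scoped Classical in
/-- the primes where the functions differ have a convergent sum of reciprocals -/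
def Clo (b a : ℕ → ℂ) : Prop :=
  Summable (fun p : ℕ => if p.Prime ∧ b p ≠ a p then 1 / (p : ℝ) else 0)

theorem quo_summ {b a : ArithmeticFunction ℂ} (hb : MB b) (h : CMA a) (hs : Clo b a) :
    Summable (fun n : ℕ => ‖quo b a n‖ / n) := by
  classical
  have hq := quo_mult hb.mult h
  have hsp : Summable (fun p : ℕ => 2 * (if p.Prime ∧ b p ≠ a p then 1 / (p : ℝ) else 0) +
      4 / (p : ℝ) ^ 2) := by
    refine (hs.mul_left 2).add ?_
    exact ((Real.summable_one_div_nat_pow (p := 2)).2 one_lt_two).mul_left 4 |>.congr fun p => by ring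
  have hterm : ∀ p : ℕ, p.Prime → ∀ k : ℕ, ‖quo b a (p ^ (k + 1))‖ / ((p ^ (k + 1) : ℕ) : ℝ) ≤
      2 / (p : ℝ) ^ (k + 1) := by
    intro p hp k
    rw [Nat.cast_pow]
    exact div_le_div_of_nonneg_right (quo_pp_le hb.bdd h hp k) (by positivity)
  have hgeo := fun (p : ℕ) (hp : p.Prime) => geo_tail hp
  have hs1 : ∀ p : ℕ, p.Prime → Summable (fun k : ℕ =>
      ‖quo b a (p ^ (k + 1 + 1))‖ / ((p ^ (k + 1 + 1) : ℕ) : ℝ)) := by
    intro p hp
    refine Summable.of_nonneg_of_le (fun k => by positivity) (fun k => ?_) (hgeo p hp).summable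
    exact hterm p hp (k + 1)
  have hs2 : ∀ p : ℕ, p.Prime → Summable (fun k : ℕ =>
      ‖quo b a (p ^ k)‖ / ((p ^ k : ℕ) : ℝ)) := by
    intro p hp
    rw [← summable_nat_add_iff 2]
    exact hs1 p hp
  refine summ_mult (fun n : ℕ => ‖quo b a n‖ / n) (fun n => by positivity) ?_ (by simp) ?_ hs2
    (fun p : ℕ => 2 * (if p.Prime ∧ b p ≠ a p then 1 / (p : ℝ) else 0) + 4 / (p : ℝ) ^ 2)
    (fun p => by positivity) hsp ?_
  · simp [hq.map_one]
  · intro m n hmn
    rw [hq.map_mul_of_coprime hmn, norm_mul, Nat.cast_mul, mul_div_mul_comm]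
  · intro p hp
    have hp2 : (2 : ℝ) ≤ p := by exact_mod_cast hp.two_le
    rw [(hs2 p hp).tsum_eq_zero_add, ((summable_nat_add_iff 1).2 (hs2 p hp)).tsum_eq_zero_add]
    have e0 : ‖quo b a (p ^ 0)‖ / ((p ^ 0 : ℕ) : ℝ) = 1 := by simp [hq.map_one]
    have e1 : ‖quo b a (p ^ (0 + 1))‖ / ((p ^ (0 + 1) : ℕ) : ℝ) ≤
        2 * (if p.Prime ∧ b p ≠ a p then 1 / (p : ℝ) else 0) := by
      by_cases hpa : b p = a p
      · rw [quo_pp h hp]
        simp [hpa, hb.mult.map_one]
      · rw [if_pos ⟨hp, hpa⟩]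
        refine (hterm p hp 0).trans (le_of_eq ?_)
        rw [zero_add, pow_one]; ring
    have e2 : ∑' k : ℕ, ‖quo b a (p ^ (k + 1 + 1))‖ / ((p ^ (k + 1 + 1) : ℕ) : ℝ) ≤
        4 / (p : ℝ) ^ 2 := by
      refine ((hs1 p hp).tsum_le_tsum (fun k => hterm p hp (k + 1)) (hgeo p hp).summable).trans ?_
      rw [(hgeo p hp).tsum_eq]
      rw [div_le_div_iff₀ (by nlinarith) (by positivity)]
      nlinarith
    rw [e0]
    linarith

theorem mean_eq (b : ArithmeticFunction ℂ) :
    (fun N : ℕ => (∑ n ∈ Icc 1 N, b n) / (N : ℂ)) = fun N : ℕ => (∑ n ∈ Ioc 0 N, b n) / (N : ℂ) := rfl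

/-- Halasz: the mean value of a non-pretentious function vanishes -/
theorem mz {b : ArithmeticFunction ℂ} (hb : MB b) (hn : NP b) :
    Tendsto (fun N : ℕ => (∑ n ∈ Ioc 0 N, b n) / (N : ℂ)) atTop (𝓝 0) := by
  have ha := cm_cma (b := b) hb.bdd
  have hc : Pool.Agent.Y122.LT.CMC (cm b) := ⟨by simp, ha.one, ha.mul, ha.bdd⟩
  have hna : NP (cm b) := by
    intro y hy
    refine hn y (hy.congr fun p => ?_)
    unfold gg
    rw [cm_prime b p.2]
  have h1 := mean0 hc (hf_of hc hna)
  rw [mean_eq] at h1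
  have hclo : Clo b (cm b) := by
    unfold Clo
    refine summable_zero.congr fun p => ?_
    rw [if_neg]
    rintro ⟨h1, h2⟩
    exact h2 (cm_prime b h1).symm
  have h2 := conv_mean (quo b (cm b)) (cm b) ha.bdd (quo_summ hb ha hclo) 0 h1
  rw [quo_mul ha] at h2
  simpa using h2

theorem zeta_cma : CMA ((zeta : ArithmeticFunction ℕ) : ArithmeticFunction ℂ) := by
  refine ⟨by simp, fun m n => ?_, fun n => ?_⟩
  · rw [natCoe_apply, natCoe_apply, natCoe_apply, zeta_apply, zeta_apply, zeta_apply]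
    by_cases hm : m = 0
    · simp [hm]
    · by_cases hn : n = 0
      · simp [hn]
      · simp [hm, hn]
  · rw [natCoe_apply, zeta_apply]
    split_ifs <;> simp

/-- a multiplicative function close to one has a mean value -/
theorem mw {b : ArithmeticFunction ℂ} (hb : MB b) (hs : Clo b (fun _ => 1)) :
    ∃ L : ℂ, Tendsto (fun N : ℕ => (∑ n ∈ Ioc 0 N, b n) / (N : ℂ)) atTop (𝓝 L) := by
  have h1 : Tendsto (fun N : ℕ => (∑ n ∈ Ioc 0 N, ((zeta : ArithmeticFunction ℕ) : ArithmeticFunction ℂ) n) /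
      (N : ℂ)) atTop (𝓝 1) := by
    refine Tendsto.congr' ?_ tendsto_const_nhds
    filter_upwards [eventually_ge_atTop 1] with N hN
    have e : ∑ n ∈ Ioc 0 N, ((zeta : ArithmeticFunction ℕ) : ArithmeticFunction ℂ) n = N := by
      have h2 : ∀ n ∈ Ioc 0 N, ((zeta : ArithmeticFunction ℕ) : ArithmeticFunction ℂ) n = 1 := by
        intro n hn
        rw [mem_Ioc] at hn
        rw [natCoe_apply, zeta_apply, if_neg (by omega)]
        simp
      rw [sum_congr rfl h2]
      simp
    rw [e, div_self]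
    have : 0 < N := hN
    exact_mod_cast this.ne'
  have hclo : Clo b ((zeta : ArithmeticFunction ℕ) : ArithmeticFunction ℂ) := by
    unfold Clo at hs ⊢
    refine hs.congr fun p => ?_
    by_cases hp : p.Prime
    · have : ((zeta : ArithmeticFunction ℕ) : ArithmeticFunction ℂ) p = 1 := by
        rw [natCoe_apply, zeta_apply, if_neg hp.ne_zero]; simp
      rw [this]
    · rw [if_neg (fun h => hp h.1), if_neg (fun h => hp h.1)]
  have h2 := conv_mean (quo b _) _ zeta_cma.bdd (quo_summ hb zeta_cma hclo) 1 h1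
  rw [quo_mul zeta_cma] at h2
  exact ⟨_, h2⟩

end Pool.Agent.Y868.VR
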