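import Pool.Agent.Y868.VR.A2
import Pool.Agent.Y868.VR.H4

/-! Project VR (helper868): level sets of multiplicative functions with values in abelian groups. -/

set_option autoImplicit false

namespace Pool.Agent.Y868.VR

open Finset Filter Topology MeasureTheory
open Pool.Agent.Y290.LT.Sup (norm_u)

theorem tri {z w : ℂ} (hz : ‖z‖ ≤ 1) (hw : ‖w‖ ≤ 1) :
    1 - (z * w).re ≤ 2 * (1 - z.re) + 2 * (1 - w.re) := by
  have h1 : z.re ^ 2 + z.im ^ 2 ≤ 1 := by
    have := Complex.sq_norm z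
    rw [Complex.normSq_apply] at this
    have h2 : ‖z‖ ^ 2 ≤ 1 := pow_le_one₀ (norm_nonneg _) hz
    nlinarith
  have h2 : w.re ^ 2 + w.im ^ 2 ≤ 1 := by
    have := Complex.sq_norm w
    rw [Complex.normSq_apply] at this
    have h2 : ‖w‖ ^ 2 ≤ 1 := pow_le_one₀ (norm_nonneg _) hw
    nlinarith
  rw [Complex.mul_re]
  nlinarith [sq_nonneg (z.im - w.im), sq_nonneg (z.re + w.re - 2)]

theorem cpow_add' {p : ℕ} (hp : 0 < p) (s t : ℝ) :
    (p : ℂ) ^ (-(((s + t : ℝ) : ℂ) * Complex.I)) =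
      (p : ℂ) ^ (-((s : ℂ) * Complex.I)) * (p : ℂ) ^ (-((t : ℂ) * Complex.I)) := by
  rw [← Complex.cpow_add _ _ (by exact_mod_cast hp.ne')]
  congr 1; push_cast; ring

theorem cpow_conj' {p : ℕ} (hp : 0 < p) (s : ℝ) :
    (p : ℂ) ^ (-(((-s : ℝ) : ℂ) * Complex.I)) =
      (starRingEnd ℂ) ((p : ℂ) ^ (-((s : ℂ) * Complex.I))) := by
  have h1 : (p : ℂ) ^ (-(((-s : ℝ) : ℂ) * Complex.I)) * (p : ℂ) ^ (-((s : ℂ) * Complex.I)) = 1 := by
    rw [← cpow_add' hp]; simp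
  have h2 : (starRingEnd ℂ) ((p : ℂ) ^ (-((s : ℂ) * Complex.I))) *
      (p : ℂ) ^ (-((s : ℂ) * Complex.I)) = 1 := by
    rw [Complex.conj_mul', norm_u hp]; simp
  have h3 : (p : ℂ) ^ (-((s : ℂ) * Complex.I)) ≠ 0 := fun h => by
    have := norm_u hp s
    rw [h] at this; simp at this
  exact mul_right_cancel₀ h3 (h1.trans h2.symm)

section

variable {A : Type} [CommGroup A] [TopologicalSpace A]

/-- the deficit of a character -/
noncomputable def gx (F : ℕ → A) (χ : PontryaginDual A) (τ : ℝ) (p : Nat.Primes) : ℝ :=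
  gg (fun n => ev (F n) χ) p 0 τ

/-- pretentious characters -/
def PP (F : ℕ → A) (χ : PontryaginDual A) (τ C : ℝ) : Prop :=
  ∀ S : Finset Nat.Primes, ∑ p ∈ S, gx F χ τ p ≤ C

theorem gx_nonneg (F : ℕ → A) (χ : PontryaginDual A) (τ : ℝ) (p : Nat.Primes) : 0 ≤ gx F χ τ p :=
  gg_nonneg (fun _ => (ev_norm _ _).le) p.2.pos _ _

theorem gx_cont (F : ℕ → A) (p : Nat.Primes) :
    Continuous (fun x : PontryaginDual A × ℝ => gx F x.1 x.2 p) := by
  have hp'' : ((p : ℕ) : ℂ) ≠ 0 := by exact_mod_cast p.2.ne_zero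
  unfold gx gg
  refine continuous_const.mul (continuous_const.sub (Complex.continuous_re.comp ?_))
  refine ((ev_cont _).comp continuous_fst).mul ?_
  refine Continuous.const_cpow (by fun_prop) (Or.inl hp'')

theorem gx_mul (F : ℕ → A) (χ ψ : PontryaginDual A) (τ σ : ℝ) (p : Nat.Primes) :
    gx F (χ * ψ) (τ + σ) p ≤ 2 * gx F χ τ p + 2 * gx F ψ σ p := by
  unfold gx gg
  have hw : (0 : ℝ) ≤ ((p : ℕ) : ℝ) ^ (-(1 + (0 : ℝ))) := by positivity
  have h1 := tri (bn (a := fun n => ev (F n) χ) (fun _ => (ev_norm _ _).le) p.2.pos τ)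
    (bn (a := fun n => ev (F n) ψ) (fun _ => (ev_norm _ _).le) p.2.pos σ)
  have e : ev (F p) (χ * ψ) * ((p : ℕ) : ℂ) ^ (-(((τ + σ : ℝ) : ℂ) * Complex.I)) =
      (ev (F p) χ * ((p : ℕ) : ℂ) ^ (-((τ : ℂ) * Complex.I))) *
        (ev (F p) ψ * ((p : ℕ) : ℂ) ^ (-((σ : ℂ) * Complex.I))) := by
    rw [cpow_add' p.2.pos, ev_mul']; ring
  simp only at h1 ⊢
  rw [e]
  have h2 := mul_le_mul_of_nonneg_left h1 hw
  linarith

theorem gx_inv (F : ℕ → A) (χ : PontryaginDual A) (τ : ℝ) (p : Nat.Primes) :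
    gx F χ⁻¹ (-τ) p = gx F χ τ p := by
  unfold gx gg
  simp only
  rw [cpow_conj' p.2.pos, ev_inv', ← map_mul, Complex.conj_re]

theorem PP.mul {F : ℕ → A} {χ ψ : PontryaginDual A} {τ σ C D : ℝ} (h1 : PP F χ τ C)
    (h2 : PP F ψ σ D) : PP F (χ * ψ) (τ + σ) (2 * C + 2 * D) := by
  intro S
  refine (sum_le_sum fun p _ => gx_mul F χ ψ τ σ p).trans ?_
  rw [sum_add_distrib, ← mul_sum, ← mul_sum]
  have := h1 S
  have := h2 S
  linarith

theorem PP.inv {F : ℕ → A} {χ : PontryaginDual A} {τ C : ℝ} (h1 : PP F χ τ C) :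
    PP F χ⁻¹ (-τ) C := by
  intro S
  simp only [gx_inv]
  exact h1 S

theorem PP.one (F : ℕ → A) : PP F 1 0 0 := by
  intro S
  refine sum_nonpos fun p _ => ?_
  unfold gx gg
  simp [ev_one']

theorem PP.mono {F : ℕ → A} {χ : PontryaginDual A} {τ C D : ℝ} (h1 : PP F χ τ C) (h : C ≤ D) :
    PP F χ τ D := fun S => (h1 S).trans h

theorem triv_uniq {y : ℝ} (hy : y ≠ 0) :
    ¬ Summable (fun p : Nat.Primes => gg (fun _ => (1 : ℂ)) p 0 y) := by
  have hf : Pool.Agent.Y872.L.CM (fun n : ℕ => if n = 0 then 0 else 1) := by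
    refine ⟨by simp, by simp, fun m n => ?_, fun n hn => ?_⟩
    · by_cases hm : m = 0
      · simp [hm]
      · by_cases hn : n = 0
        · simp [hn]
        · simp [hm, hn]
    · left; simp [hn.ne']
  have h1 := Pool.Agent.Y290.LT.Sup.nonsumm_A hf (1 : DirichletCharacter ℂ 1) one_pos y (Or.inr hy)
  intro h2
  refine h1 (h2.congr fun p => ?_)
  rw [Pool.Agent.Y290.LT.Sup.g_eq _ p.2.pos]
  unfold gg
  have e1 : ((1 : DirichletCharacter ℂ 1) ((p : ℕ) : ZMod 1)) = 1 := by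
    rw [MulChar.one_apply]
    exact isUnit_of_subsingleton _
  rw [e1]
  simp [p.2.ne_zero]

theorem PP.uniq {F : ℕ → A} {χ : PontryaginDual A} {τ σ C D : ℝ} (h1 : PP F χ τ C)
    (h2 : PP F χ σ D) : τ = σ := by
  by_contra hne
  have h3 := h1.mul h2.inv
  rw [mul_inv_cancel] at h3
  have hy : τ + -σ ≠ 0 := by
    intro h; apply hne; linarith
  refine triv_uniq hy ?_
  refine summable_of_sum_le (c := 2 * C + 2 * D) (fun p => gg_nonneg (by simp) p.2.pos _ _) fun S => ?_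
  refine le_trans (le_of_eq (sum_congr rfl fun p _ => ?_)) (h3 S)
  unfold gx gg
  simp [ev_one']

theorem PP.pow {F : ℕ → A} {χ : PontryaginDual A} {τ C : ℝ} (h1 : PP F χ τ C) (n : ℕ) :
    ∃ D, PP F (χ ^ n) (n * τ) D := by
  induction n with
  | zero => exact ⟨0, by simpa using PP.one F⟩
  | succ n ih =>
    obtain ⟨D, hD⟩ := ih
    refine ⟨2 * D + 2 * C, ?_⟩
    · have := hD.mul h1
      have e : (n : ℝ) * τ + τ = ((n + 1 : ℕ) : ℝ) * τ := by push_cast; ring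
      rw [e, ← pow_succ] at this
      exact this

/-- the subgroup of pretentious characters -/
def HH (F : ℕ → A) : Subgroup (PontryaginDual A) where
  carrier := {χ | ∃ τ C, PP F χ τ C}
  mul_mem' := by
    rintro χ ψ ⟨τ, C, h1⟩ ⟨σ, D, h2⟩
    exact ⟨_, _, h1.mul h2⟩
  one_mem' := ⟨0, 0, PP.one F⟩
  inv_mem' := by
    rintro χ ⟨τ, C, h1⟩
    exact ⟨_, _, h1.inv⟩

theorem mem_HH {F : ℕ → A} {χ : PontryaginDual A} : χ ∈ HH F ↔ ∃ τ C, PP F χ τ C := Iff.rfl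

/-- the layers -/
def HT (F : ℕ → A) (n : ℕ) : Set (PontryaginDual A) := {χ | ∃ τ : ℝ, |τ| ≤ n ∧ PP F χ τ n}

theorem HH_eq (F : ℕ → A) : (HH F : Set (PontryaginDual A)) = ⋃ n, HT F n := by
  ext χ
  rw [SetLike.mem_coe, mem_HH, Set.mem_iUnion]
  constructor
  · rintro ⟨τ, C, h⟩
    obtain ⟨n, hn⟩ := exists_nat_ge (max |τ| C)
    exact ⟨n, τ, (le_max_left _ _).trans hn, h.mono ((le_max_right _ _).trans hn)⟩
  · rintro ⟨n, τ, _, h⟩
    exact ⟨τ, n, h⟩

theorem HT_closed [DiscreteTopology A] (F : ℕ → A) (n : ℕ) : IsClosed (HT F n) := by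
  have h1 : IsClosed {x : PontryaginDual A × ℝ | PP F x.1 x.2 n} := by
    unfold PP
    simp only [Set.ofPred_forall]
    refine isClosed_iInter fun S => ?_
    refine isClosed_le (continuous_finsetSum _ fun p _ => gx_cont F p) continuous_const
  have h2 : IsCompact ((Set.univ : Set (PontryaginDual A)) ×ˢ Set.Icc (-(n : ℝ)) n ∩
      {x : PontryaginDual A × ℝ | PP F x.1 x.2 n}) :=
    (isCompact_univ.prod isCompact_Icc).inter_right h1
  have h3 := (h2.image continuous_fst).isClosed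
  convert h3 using 1
  ext χ
  simp only [HT, Set.mem_ofPred_eq, Set.mem_image, Set.mem_inter_iff, Set.mem_prod, Set.mem_univ,
    true_and, Set.mem_Icc, Prod.exists, exists_and_right, exists_eq_right, abs_le]

end

end Pool.Agent.Y868.VR
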