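import Pool.Agent.Y868.VR.A3

/-! Project VR (helper868): level sets of multiplicative functions with values in abelian groups have
densities. -/

set_option autoImplicit false

namespace Pool.Agent.Y868.VR

open Finset Filter Topology MeasureTheory

section

variable {A : Type} [CommGroup A] [TopologicalSpace A] [DiscreteTopology A]
  [MeasurableSpace (PontryaginDual A)] [BorelSpace (PontryaginDual A)]
  (μ : Measure (PontryaginDual A)) [μ.IsHaarMeasure] [IsProbabilityMeasure μ] [μ.Regular]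

/-- the pretentious characters, if they have positive measure, are uniformly so -/
theorem unif (F : ℕ → A) (h : μ (HH F : Set (PontryaginDual A)) ≠ 0) :
    IsOpen (HH F : Set (PontryaginDual A)) ∧ ∃ C : ℝ, ∀ χ ∈ HH F, PP F χ 0 C := by
  obtain ⟨n, hn⟩ : ∃ n, μ (HT F n) ≠ 0 := by
    by_contra hcon
    push Not at hcon
    apply h
    rw [HH_eq]
    exact measure_iUnion_null hcon
  have h1 := Measure.div_mem_nhds_one_of_haar_pos_ne_top μ (HT F n) (HT_closed F n).measurableSet
    (pos_iff_ne_zero.2 hn) (measure_ne_top _ _)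
  set U : Set (PontryaginDual A) := {χ | ∃ τ : ℝ, |τ| ≤ 2 * n ∧ PP F χ τ (4 * n)} with hU
  have h2 : U ∈ 𝓝 (1 : PontryaginDual A) := by
    refine mem_of_superset h1 ?_
    rintro χ ⟨χ₁, ⟨τ₁, ht1, hp1⟩, χ₂, ⟨τ₂, ht2, hp2⟩, rfl⟩
    refine ⟨τ₁ + -τ₂, ?_, ?_⟩
    · refine (abs_add_le _ _).trans ?_
      rw [abs_neg]; linarith
    · have h3 := (hp1.mul hp2.inv).mono (show 2 * (n : ℝ) + 2 * n ≤ 4 * n by linarith)
      rw [← div_eq_mul_inv] at h3
      exact h3
  have hUH : U ⊆ (HH F : Set (PontryaginDual A)) := by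
    rintro χ ⟨τ, _, hp⟩
    exact ⟨τ, _, hp⟩
  have hopen : IsOpen (HH F : Set (PontryaginDual A)) :=
    (HH F).isOpen_of_mem_nhds (g := 1) (mem_of_superset h2 hUH)
  refine ⟨hopen, ?_⟩
  have hcomp : IsCompact (HH F : Set (PontryaginDual A)) :=
    ((HH F).isClosed_of_isOpen hopen).isCompact
  obtain ⟨T, C, hTC⟩ : ∃ T C : ℝ, ∀ χ ∈ (HH F : Set (PontryaginDual A)), ∃ τ : ℝ, |τ| ≤ T ∧
      PP F χ τ C := by
    refine hcomp.induction_on (p := fun s => ∃ T C : ℝ, ∀ χ ∈ s, ∃ τ : ℝ, |τ| ≤ T ∧ PP F χ τ C)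
      ⟨0, 0, fun χ hχ => absurd hχ (Set.notMem_empty χ)⟩ ?_ ?_ ?_
    · rintro s t hst ⟨T, C, h3⟩
      exact ⟨T, C, fun χ hχ => h3 χ (hst hχ)⟩
    · rintro s t ⟨T₁, C₁, h3⟩ ⟨T₂, C₂, h4⟩
      refine ⟨max T₁ T₂, max C₁ C₂, fun χ hχ => ?_⟩
      rcases hχ with hχ | hχ
      · obtain ⟨τ, h5, h6⟩ := h3 χ hχ
        exact ⟨τ, h5.trans (le_max_left _ _), h6.mono (le_max_left _ _)⟩
      · obtain ⟨τ, h5, h6⟩ := h4 χ hχ
        exact ⟨τ, h5.trans (le_max_right _ _), h6.mono (le_max_right _ _)⟩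
    · intro x hx
      obtain ⟨τ₀, C₀, h3⟩ := mem_HH.1 hx
      have hcont : Continuous (fun y : PontryaginDual A => x⁻¹ * y) := continuous_const.mul continuous_id
      have h4 : (fun y : PontryaginDual A => x⁻¹ * y) ⁻¹' U ∈ 𝓝 x := by
        apply hcont.continuousAt.preimage_mem_nhds
        rw [inv_mul_cancel]; exact h2
      refine ⟨_, mem_nhdsWithin_of_mem_nhds h4, |τ₀| + 2 * n, 2 * C₀ + 2 * (4 * n), ?_⟩
      rintro χ ⟨τ, h5, h6⟩
      refine ⟨τ₀ + τ, (abs_add_le _ _).trans (by linarith), ?_⟩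
      have h7 := h3.mul h6
      rw [mul_inv_cancel_left] at h7
      exact h7
  refine ⟨C, fun χ hχ => ?_⟩
  obtain ⟨τ, hτ, hp⟩ := hTC χ hχ
  have hτ0 : τ = 0 := by
    by_contra hne
    have h3 : ∀ m : ℕ, (m : ℝ) * |τ| ≤ T := by
      intro m
      obtain ⟨D, hD⟩ := hp.pow m
      obtain ⟨σ, hσ, hσ2⟩ := hTC (χ ^ m) ((HH F).pow_mem hχ m)
      have h4 := hD.uniq hσ2
      rw [← h4, abs_mul, Nat.abs_cast] at hσ
      exact hσ
    have h4 : 0 < |τ| := abs_pos.2 hne
    obtain ⟨m, hm⟩ := exists_nat_gt (T / |τ|)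
    rw [div_lt_iff₀ h4] at hm
    linarith [h3 m]
  rw [hτ0] at hp
  exact hp

open scoped Classical in
/-- the primes whose values are not killed by the pretentious characters -/
theorem sumK (F : ℕ → A) (h : μ (HH F : Set (PontryaginDual A)) ≠ 0)
    (hopen : IsOpen (HH F : Set (PontryaginDual A))) {C : ℝ} (hC : ∀ χ ∈ HH F, PP F χ 0 C)
    (S : Finset Nat.Primes) :
    ∑ p ∈ S, (if ∃ ψ ∈ HH F, ev (F p) ψ ≠ 1 then 1 / ((p : ℕ) : ℝ) else 0) ≤ C := by
  set M : ℝ := μ.real (HH F : Set (PontryaginDual A)) with hM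
  have hM0 : 0 < M := by
    rw [hM, measureReal_def]
    exact ENNReal.toReal_pos h (measure_ne_top _ _)
  have hgx : ∀ (p : Nat.Primes) (χ : PontryaginDual A),
      gx F χ 0 p = (1 / ((p : ℕ) : ℝ)) * (1 - (ev (F p) χ).re) := by
    intro p χ
    unfold gx gg
    rw [add_zero, Real.rpow_neg_one, one_div]
    simp
  have hgi : ∀ p : Nat.Primes, Integrable (fun χ => gx F χ 0 p) μ := by
    intro p
    simp only [hgx]
    refine Integrable.const_mul ?_ _
    refine (integrable_const _).sub ?_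
    exact (int_of_cont μ (ev_cont (F p)) (C := 1) fun χ => (ev_norm _ _).le).re
  have h1 : ∫ χ in (HH F : Set (PontryaginDual A)), ∑ p ∈ S, gx F χ 0 p ∂μ ≤ C * M := by
    have h2 : ∫ χ in (HH F : Set (PontryaginDual A)), ∑ p ∈ S, gx F χ 0 p ∂μ ≤
        ∫ χ in (HH F : Set (PontryaginDual A)), C ∂μ := by
      refine setIntegral_mono_on ?_ ?_ hopen.measurableSet fun χ hχ => hC χ hχ S
      · exact (integrable_finsetSum _ fun p _ => hgi p).integrableOn
      · exact (integrable_const _).integrableOn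
    rw [setIntegral_const, smul_eq_mul, mul_comm] at h2
    exact h2
  rw [integral_finsetSum _ fun p _ => (hgi p).integrableOn] at h1
  have h2 : ∀ p ∈ S, M * (if ∃ ψ ∈ HH F, ev (F p) ψ ≠ 1 then 1 / ((p : ℕ) : ℝ) else 0) ≤
      ∫ χ in (HH F : Set (PontryaginDual A)), gx F χ 0 p ∂μ := by
    intro p _
    split_ifs with hp
    · obtain ⟨ψ, hψ, hne⟩ := hp
      simp only [hgx]
      rw [integral_const_mul, integral_sub (integrable_const _) , setIntegral_const, smul_eq_mul]
      · have h3 : ∫ χ in (HH F : Set (PontryaginDual A)), (ev (F p) χ).re ∂μ = 0 := by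
          have h4 := int_ev_sub μ (HH F) hopen.measurableSet (F p) hψ hne
          have h5 : IntegrableOn (ev (F (p : ℕ))) (HH F : Set (PontryaginDual A)) μ :=
            (int_of_cont μ (ev_cont (F p)) (C := 1) fun χ => (ev_norm _ _).le).integrableOn
          have h6 := integral_re h5
          rw [h4] at h6
          simpa using h6
        rw [h3]
        apply le_of_eq
        rw [sub_zero, mul_one, mul_comm]
      · exact (int_of_cont μ (ev_cont (F p)) (C := 1) fun χ => (ev_norm _ _).le).re.integrableOn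
    · rw [mul_zero]
      exact integral_nonneg fun χ => gx_nonneg F χ 0 p
  have h3 := (sum_le_sum h2).trans h1
  rw [← mul_sum, mul_comm C M] at h3
  exact le_of_mul_le_mul_left h3 hM0

/-- the arithmetic function attached to a character -/
noncomputable def bf (F : ℕ → A) (χ : PontryaginDual A) : ArithmeticFunction ℂ :=
  ⟨fun n => if n = 0 then 0 else ev (F n) χ, by simp⟩

omit [DiscreteTopology A] [MeasurableSpace (PontryaginDual A)] [BorelSpace (PontryaginDual A)] in
theorem bf_apply (F : ℕ → A) (χ : PontryaginDual A) {n : ℕ} (hn : n ≠ 0) :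
    bf F χ n = ev (F n) χ := by
  change (if n = 0 then 0 else ev (F n) χ) = _
  rw [if_neg hn]

omit [DiscreteTopology A] [MeasurableSpace (PontryaginDual A)] [BorelSpace (PontryaginDual A)] in
theorem bf_mb {F : ℕ → A} (h1 : F 1 = 1)
    (hm : ∀ m n : ℕ, 0 < m → 0 < n → Nat.Coprime m n → F (m * n) = F m * F n)
    (χ : PontryaginDual A) : MB (bf F χ) := by
  refine ⟨⟨?_, ?_⟩, ?_⟩
  · rw [bf_apply F χ one_ne_zero, h1, ev_one]
  · intro m n hmn
    rcases Nat.eq_zero_or_pos m with h0 | h0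
    · subst h0; simp
    rcases Nat.eq_zero_or_pos n with h0' | h0'
    · subst h0'; simp
    rw [bf_apply F χ h0.ne', bf_apply F χ h0'.ne', bf_apply F χ (Nat.mul_pos h0 h0').ne',
      hm m n h0 h0' hmn, ev_mul]
  · intro n
    rcases eq_or_ne n 0 with h0 | h0
    · subst h0; simp
    · rw [bf_apply F χ h0]; exact (ev_norm _ _).le

omit [DiscreteTopology A] [MeasurableSpace (PontryaginDual A)] [BorelSpace (PontryaginDual A)] in
theorem bf_sum (F : ℕ → A) (χ : PontryaginDual A) (N : ℕ) :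
    ∑ n ∈ Ioc 0 N, bf F χ n = ∑ n ∈ Ioc 0 N, ev (F n) χ := by
  refine sum_congr rfl fun n hn => ?_
  rw [mem_Ioc] at hn
  exact bf_apply F χ (by omega)

omit [DiscreteTopology A] [MeasurableSpace (PontryaginDual A)] [BorelSpace (PontryaginDual A)] in
theorem bf_np {F : ℕ → A} {χ : PontryaginDual A} (h : χ ∉ HH F) : NP (bf F χ) := by
  intro y hs
  apply h
  have e : ∀ p : Nat.Primes, gg (bf F χ) p 0 y = gx F χ y p := by
    intro p
    unfold gx gg
    rw [bf_apply F χ p.2.ne_zero]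
  simp only [e] at hs
  exact ⟨y, _, fun S => hs.sum_le_tsum S fun p _ => gx_nonneg F χ y p⟩

include μ in
theorem abel_aux {F : ℕ → A} (h1 : F 1 = 1)
    (hm : ∀ m n : ℕ, 0 < m → 0 < n → Nat.Coprime m n → F (m * n) = F m * F n) (g : A) :
    ∃ d : ℂ, Tendsto (fun N : ℕ => ((Nat.card {n : ℕ // 1 ≤ n ∧ n ≤ N ∧ F n = g} : ℂ) / (N : ℂ)))
      atTop (𝓝 d) := by
  classical
  have hz : ∀ χ : PontryaginDual A, χ ∉ HH F →
      ∃ L : ℂ, Tendsto (fun N : ℕ => (∑ n ∈ Ioc 0 N, ev (F n) χ) / (N : ℂ)) atTop (𝓝 L) := by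
    intro χ hχ
    have h2 := mz (bf_mb h1 hm χ) (bf_np hχ)
    simp only [bf_sum] at h2
    exact ⟨0, h2⟩
  apply dens_of_ae μ F g
  by_cases hμ : μ (HH F : Set (PontryaginDual A)) = 0
  · rw [measure_eq_zero_iff_ae_notMem] at hμ
    filter_upwards [hμ] with χ hχ
    exact hz χ hχ
  · refine Eventually.of_forall fun χ => ?_
    by_cases hχ : χ ∈ HH F
    · obtain ⟨hopen, C, hC⟩ := unif μ F hμ
      have h3 : Summable (fun p : Nat.Primes =>
          if ∃ ψ ∈ HH F, ev (F p) ψ ≠ 1 then 1 / ((p : ℕ) : ℝ) else 0) := by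
        refine summable_of_sum_le (c := C) (fun p => ?_) (sumK μ F hμ hopen hC)
        positivity
      have h4 : Summable (fun p : ℕ => Set.indicator {p : ℕ | p.Prime}
          (fun p => if ∃ ψ ∈ HH F, ev (F p) ψ ≠ 1 then 1 / (p : ℝ) else 0) p) :=
        summable_subtype_iff_indicator.1 h3
      have h5 : Clo (bf F χ) (fun _ => 1) := by
        unfold Clo
        refine Summable.of_nonneg_of_le (fun p => by positivity) (fun p => ?_) h4
        by_cases hp : p.Prime
        · rw [Set.indicator_of_mem (show p ∈ {p : ℕ | p.Prime} from hp)]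
          by_cases h6 : bf F χ p ≠ 1
          · rw [if_pos ⟨hp, h6⟩, if_pos]
            refine ⟨χ, hχ, ?_⟩
            rwa [bf_apply F χ hp.ne_zero] at h6
          · rw [if_neg (fun h => h6 h.2)]
            positivity
        · rw [if_neg (fun h => hp h.1)]
          rw [Set.indicator_of_notMem (show p ∉ {p : ℕ | p.Prime} from hp)]
      obtain ⟨L, hL⟩ := mw (bf_mb h1 hm χ) h5
      simp only [bf_sum] at hL
      exact ⟨L, hL⟩
    · exact hz χ hχ

end

/-- the level sets of a multiplicative function with values in an abelian group have densities -/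
theorem abel {A : Type} [CommGroup A] {F : ℕ → A} (h1 : F 1 = 1)
    (hm : ∀ m n : ℕ, 0 < m → 0 < n → Nat.Coprime m n → F (m * n) = F m * F n) (g : A) :
    ∃ d : ℝ, Tendsto (fun N : ℕ => ((Nat.card {n : ℕ // 1 ≤ n ∧ n ≤ N ∧ F n = g} : ℝ) / (N : ℝ)))
      atTop (𝓝 d) := by
  letI : TopologicalSpace A := ⊥
  haveI : DiscreteTopology A := ⟨rfl⟩
  letI : MeasurableSpace (PontryaginDual A) := borel _
  haveI : BorelSpace (PontryaginDual A) := ⟨rfl⟩
  let K₀ : TopologicalSpace.PositiveCompacts (PontryaginDual A) := ⊤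
  haveI : IsProbabilityMeasure (Measure.haarMeasure K₀) := by
    constructor
    have := Measure.haarMeasure_self (K₀ := K₀)
    exact this
  obtain ⟨d, hd⟩ := abel_aux (Measure.haarMeasure K₀) h1 hm g
  refine ⟨d.re, ?_⟩
  have h2 := (Complex.continuous_re.tendsto d).comp hd
  refine h2.congr fun N => ?_
  simp only [Function.comp_def]
  rw [← Complex.ofReal_natCast, ← Complex.ofReal_natCast, ← Complex.ofReal_div, Complex.ofReal_re]

end Pool.Agent.Y868.VR
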