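import Pool.Agent.Y868.VR.A4

/-! Project VR (helper868): reduction of the general case to abelian groups. -/

set_option autoImplicit false

namespace Pool.Agent.Y868.VR

open Finset Filter Topology

/-! ### sums -/

theorem sum2 (c : ℕ → ℕ → ℝ) (N : ℕ) :
    ∑ n ∈ Ioc 0 N, ∑ p ∈ n.divisorsAntidiagonal, c p.1 p.2 =
      ∑ d ∈ Ioc 0 N, ∑ t ∈ Ioc 0 (N / d), c d t := by
  have h : ∀ n ∈ Ioc 0 N, ∑ p ∈ n.divisorsAntidiagonal, c p.1 p.2 =
      ∑ d ∈ Ioc 0 N, if d ∣ n then c d (n / d) else 0 := by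
    intro n hn
    rw [mem_Ioc] at hn
    rw [Nat.sum_divisorsAntidiagonal (f := fun u v => c u v), ← sum_filter]
    refine sum_congr ?_ fun _ _ => rfl
    ext d
    rw [Nat.mem_divisors, mem_filter, mem_Ioc]
    constructor
    · rintro ⟨h1, h2⟩
      exact ⟨⟨Nat.pos_of_dvd_of_pos h1 (by omega), (Nat.le_of_dvd (by omega) h1).trans hn.2⟩, h1⟩
    · rintro ⟨_, h2⟩
      exact ⟨h2, by omega⟩
  rw [sum_congr rfl h, sum_comm]
  refine sum_congr rfl fun d hd => ?_
  rw [mem_Ioc] at hd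
  rw [← sum_filter]
  refine sum_nbij' (fun n => n / d) (fun m => m * d) ?_ ?_ ?_ ?_ ?_
  · intro n hn
    rw [mem_filter, mem_Ioc] at hn
    rw [mem_Ioc]
    exact ⟨Nat.div_pos (Nat.le_of_dvd (by omega) hn.2) (by omega), Nat.div_le_div_right hn.1.2⟩
  · intro m hm
    rw [mem_Ioc] at hm
    rw [mem_filter, mem_Ioc]
    refine ⟨⟨Nat.mul_pos (by omega) (by omega), ?_⟩, Dvd.intro_left m rfl⟩
    exact (Nat.mul_le_mul_right d hm.2).trans (Nat.div_mul_le_self N d)
  · intro n hn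
    rw [mem_filter] at hn
    exact Nat.div_mul_cancel hn.2
  · intro m hm
    exact Nat.mul_div_cancel m (by omega)
  · intro n hn
    rfl

theorem conv2 (c : ℕ → ℕ → ℝ) (w : ℕ → ℝ) (hc : ∀ d t, |c d t| ≤ w d)
    (hs : Summable (fun d : ℕ => w d / d)) (L : ℕ → ℝ)
    (hL : ∀ d, 0 < d → Tendsto (fun N : ℕ => (∑ t ∈ Ioc 0 N, c d t) / (N : ℝ)) atTop (𝓝 (L d))) :
    Tendsto (fun N : ℕ => (∑ d ∈ Ioc 0 N, ∑ t ∈ Ioc 0 (N / d), c d t) / (N : ℝ)) atTop
      (𝓝 (∑' d : ℕ, L d / d)) := by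
  have h1 : Tendsto (fun N : ℕ => ∑' d : ℕ, ((∑ t ∈ Ioc 0 (N / d), c d t) / (N : ℝ))) atTop
      (𝓝 (∑' d : ℕ, L d / d)) := by
    refine tendsto_tsum_of_dominated_convergence (bound := fun d : ℕ => w d / d) hs ?_ ?_
    · intro d
      rcases Nat.eq_zero_or_pos d with hd | hd
      · subst hd; simp
      have h2 : Tendsto (fun N : ℕ => N / d) atTop atTop := Nat.tendsto_div_const_atTop hd.ne'
      have h3 := (hL d hd).comp h2
      have h4 : Tendsto (fun N : ℕ => (((N / d : ℕ) : ℝ) / (N : ℝ))) atTop (𝓝 (1 / (d : ℝ))) := by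
        have h5 := (tendsto_nat_floor_mul_div_atTop (R := ℝ) (a := 1 / (d : ℝ)) (by positivity)).comp
          (tendsto_natCast_atTop_atTop (R := ℝ))
        refine h5.congr fun N => ?_
        simp only [Function.comp_def]
        rw [one_div, mul_comm, ← div_eq_mul_inv, Nat.floor_div_eq_div]
      have h6 := h3.mul h4
      have e : L d * (1 / (d : ℝ)) = L d / d := by ring
      rw [e] at h6
      refine h6.congr' ?_
      filter_upwards [eventually_ge_atTop d] with N hN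
      simp only [Function.comp_def]
      have hNd : 0 < N / d := Nat.div_pos hN hd
      have h7 : ((N / d : ℕ) : ℝ) ≠ 0 := by exact_mod_cast hNd.ne'
      have h8 : (N : ℝ) ≠ 0 := by
        have : 0 < N := by omega
        exact_mod_cast this.ne'
      field_simp
    · filter_upwards [eventually_ge_atTop 1] with N hN d
      have hN' : (0 : ℝ) < N := by exact_mod_cast hN
      have hw : 0 ≤ w d := (abs_nonneg _).trans (hc d 0)
      rcases Nat.eq_zero_or_pos d with hd | hd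
      · subst hd; simp
      have hd' : (0 : ℝ) < d := by exact_mod_cast hd
      rw [Real.norm_eq_abs, abs_div, abs_of_pos hN', div_le_div_iff₀ hN' hd']
      have h2 : |∑ t ∈ Ioc 0 (N / d), c d t| ≤ ((N / d : ℕ) : ℝ) * w d := by
        refine (abs_sum_le_sum_abs _ _).trans ((sum_le_sum fun t _ => hc d t).trans ?_)
        simp
      have h3 : ((N / d : ℕ) : ℝ) * d ≤ N := by exact_mod_cast Nat.div_mul_le_self N d
      calc |∑ t ∈ Ioc 0 (N / d), c d t| * d ≤ ((N / d : ℕ) : ℝ) * w d * d :=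
            mul_le_mul_of_nonneg_right h2 hd'.le
        _ = w d * (((N / d : ℕ) : ℝ) * d) := by ring
        _ ≤ w d * N := mul_le_mul_of_nonneg_left h3 hw
  refine h1.congr fun N => ?_
  rw [sum_div, tsum_eq_sum (s := Ioc 0 N)]
  intro d hd
  rw [mem_Ioc] at hd
  rcases Nat.eq_zero_or_pos d with h0 | h0
  · subst h0; simp
  · have : N / d = 0 := Nat.div_eq_of_lt (by omega)
    rw [this]; simp

/-! ### the factorisation -/

/-- all primes dividing `s` divide `m₀` -/
def Sm (m₀ s : ℕ) : Prop := 0 < s ∧ ∀ p : ℕ, p.Prime → p ∣ s → p ∣ m₀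

theorem exists_fac (m₀ : ℕ) (n : ℕ) (hn : 0 < n) :
    ∃ s t : ℕ, Sm m₀ s ∧ Nat.Coprime t m₀ ∧ s * t = n := by
  induction n using Nat.strong_induction_on with
  | _ n ih =>
    by_cases h : Nat.Coprime n m₀
    · exact ⟨1, n, ⟨one_pos, fun p hp hp1 => absurd (Nat.dvd_one.1 hp1) hp.one_lt.ne'⟩, h, one_mul n⟩
    · obtain ⟨p, hp, h1, h2⟩ := Nat.Prime.not_coprime_iff_dvd.1 h
      obtain ⟨n₁, rfl⟩ := h1
      have hn₁ : 0 < n₁ := Nat.pos_of_mul_pos_left hn |> fun h => h
      obtain ⟨s, t, hs, ht, hst⟩ := ih n₁ (by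
        have := hp.two_le
        nlinarith) hn₁
      refine ⟨p * s, t, ⟨Nat.mul_pos hp.pos hs.1, fun q hq hqs => ?_⟩, ht, by rw [mul_assoc, hst]⟩
      rcases (hq.dvd_mul).1 hqs with h3 | h3
      · rw [(Nat.prime_dvd_prime_iff_eq hq hp).1 h3]; exact h2
      · exact hs.2 q hq h3

theorem Sm.coprime {m₀ s t : ℕ} (hs : Sm m₀ s) (ht : Nat.Coprime t m₀) : Nat.Coprime s t := by
  refine Nat.Coprime.symm (Nat.coprime_of_dvd fun p hp h1 h2 => ?_)
  have h3 := hs.2 p hp h2
  have h4 := Nat.dvd_gcd h1 h3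
  rw [ht] at h4
  exact hp.one_lt.ne' (Nat.dvd_one.1 h4)

theorem fac_uniq {m₀ s t s' t' : ℕ} (hs : Sm m₀ s) (ht : Nat.Coprime t m₀) (hs' : Sm m₀ s')
    (ht' : Nat.Coprime t' m₀) (h : s * t = s' * t') : s = s' := by
  have h1 : s ∣ s' := (hs.coprime ht').dvd_of_dvd_mul_right (h ▸ Dvd.intro t rfl)
  have h2 : s' ∣ s := (hs'.coprime ht).dvd_of_dvd_mul_right (h ▸ Dvd.intro t' rfl)
  exact Nat.dvd_antisymm h1 h2

open scoped Classical in
theorem Sm_summable (m₀ : ℕ) (hm₀ : 0 < m₀) :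
    Summable (fun s : ℕ => (if Sm m₀ s then (1 : ℝ) else 0) / s) := by
  have h1 := (EulerProduct.summable_and_hasSum_factoredNumbers_prod_filter_prime_tsum
    (f := fun n : ℕ => 1 / (n : ℝ)) (by simp) (fun {m n} _ => by push_cast; ring)
    (fun {p} hp => by
      have hp1 : (1 : ℝ) < p := by exact_mod_cast hp.one_lt
      have := summable_geometric_of_lt_one (r := 1 / (p : ℝ)) (by positivity)
        (by rw [div_lt_one (by linarith)]; exact hp1)
      refine this.congr fun k => ?_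
      rw [Real.norm_of_nonneg (by positivity)]
      push_cast
      rw [one_div, one_div, inv_pow]) m₀.primeFactors).1
  have h2 : Summable (fun s : ℕ => Set.indicator (Nat.factoredNumbers m₀.primeFactors)
      (fun s : ℕ => ‖1 / (s : ℝ)‖) s) := summable_subtype_iff_indicator.1 h1
  refine Summable.of_nonneg_of_le (fun s => by positivity) (fun s => ?_) h2
  by_cases hs : Sm m₀ s
  · have h3 : s ∈ Nat.factoredNumbers m₀.primeFactors := by
      rw [Nat.mem_factoredNumbers]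
      refine ⟨hs.1.ne', fun p hp => ?_⟩
      rw [Nat.mem_primeFactorsList hs.1.ne'] at hp
      rw [Nat.mem_primeFactors]
      exact ⟨hp.1, hs.2 p hp.1 hp.2, hm₀.ne'⟩
    rw [Set.indicator_of_mem h3, if_pos hs, Real.norm_of_nonneg (by positivity)]
  · rw [if_neg hs, zero_div]
    exact Set.indicator_nonneg (fun _ _ => norm_nonneg _) _

end Pool.Agent.Y868.VR
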