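import Pool.Agent.Y122.LT.LowC
import Pool.Agent.Y290.LT.Sup

/-! Project VR (helper868): the generating function of a non-pretentious completely multiplicative
function is `o(1/δ)` near the line `1`. -/

set_option autoImplicit false

namespace Pool.Agent.Y868.VR

open Finset Filter Topology
open Pool.Agent.Y122.LT (CMC HF DS tw DS_eq)
open Pool.Agent.Y290.LT.Sup (K pt pt_re pt_ne norm_pow rpow_le_inv cpow_split norm_u zeta_up upper
  summ_re)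

/-- the deficit -/
noncomputable def gg (a : ℕ → ℂ) (p : ℕ) (δ y : ℝ) : ℝ :=
  (p : ℝ) ^ (-(1 + δ)) * (1 - (a p * (p : ℂ) ^ (-(y * Complex.I))).re)

theorem bn {a : ℕ → ℂ} (ha : ∀ n, ‖a n‖ ≤ 1) {p : ℕ} (hp : 0 < p) (y : ℝ) :
    ‖a p * (p : ℂ) ^ (-(y * Complex.I))‖ ≤ 1 := by
  rw [norm_mul, norm_u hp, mul_one]; exact ha p

theorem gg_nonneg {a : ℕ → ℂ} (ha : ∀ n, ‖a n‖ ≤ 1) {p : ℕ} (hp : 0 < p) (δ y : ℝ) :
    0 ≤ gg a p δ y := by
  unfold gg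
  have h1 := (Complex.re_le_norm _).trans (bn ha hp y)
  have h2 : (0 : ℝ) ≤ (p : ℝ) ^ (-(1 + δ)) := by positivity
  exact mul_nonneg h2 (by linarith)

theorem gg_cont (a : ℕ → ℂ) {p : ℕ} (hp : 0 < p) :
    Continuous (fun x : ℝ × ℝ => gg a p x.1 x.2) := by
  have hp' : (p : ℝ) ≠ 0 := by exact_mod_cast hp.ne'
  have hp'' : (p : ℂ) ≠ 0 := by exact_mod_cast hp.ne'
  unfold gg
  refine Continuous.mul ?_ ?_
  · exact Continuous.rpow continuous_const (by fun_prop) (fun x => Or.inl hp')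
  · refine continuous_const.sub (Complex.continuous_re.comp (continuous_const.mul ?_))
    refine Continuous.const_cpow (by fun_prop) (Or.inl hp'')

/-- the summand -/
noncomputable def Ph {a : ℕ → ℂ} (h : CMC a) (δ y : ℝ) : ℕ →*₀ ℂ where
  toFun n := a n * (n : ℂ) ^ (-(pt δ y))
  map_zero' := by simp [h.zero]
  map_one' := by simp [h.one]
  map_mul' m n := by
    rw [h.mul, Nat.cast_mul, Complex.natCast_mul_natCast_cpow]
    ring

theorem Ph_apply {a : ℕ → ℂ} (h : CMC a) (δ y : ℝ) (n : ℕ) :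
    Ph h δ y n = a n * (n : ℂ) ^ (-(pt δ y)) := rfl

theorem Ph_le {a : ℕ → ℂ} (h : CMC a) (δ y : ℝ) {n : ℕ} (hn : 0 < n) :
    ‖Ph h δ y n‖ ≤ (n : ℝ) ^ (-(1 + δ)) := by
  rw [Ph_apply, norm_mul, norm_pow δ y hn]
  have h2 : (0 : ℝ) ≤ (n : ℝ) ^ (-(1 + δ)) := by positivity
  have := mul_le_mul_of_nonneg_right (h.bdd n) h2
  linarith

theorem Ph_summ {a : ℕ → ℂ} (h : CMC a) {δ : ℝ} (y : ℝ) (hδ : 0 < δ) :
    Summable (fun n => ‖Ph h δ y n‖) := by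
  refine Summable.of_nonneg_of_le (fun _ => norm_nonneg _) (fun n => ?_)
    (Real.summable_nat_rpow.2 (show -(1 + δ) < -1 by linarith))
  rcases Nat.eq_zero_or_pos n with rfl | hn
  · rw [map_zero, norm_zero]
    positivity
  · exact Ph_le h δ y hn

theorem Ph_prime {a : ℕ → ℂ} (h : CMC a) {δ : ℝ} (y : ℝ) (hδ : 0 < δ) (p : ℕ) (hp : p.Prime) :
    ‖Ph h δ y p‖ ≤ 1 / (p : ℝ) :=
  (Ph_le h δ y hp.pos).trans (rpow_le_inv hδ.le hp)

theorem gg_eq {a : ℕ → ℂ} (h : CMC a) {p : ℕ} (hp : 0 < p) (δ y : ℝ) :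
    gg a p δ y = (p : ℝ) ^ (-(1 + δ)) - (Ph h δ y p).re := by
  rw [Ph_apply, cpow_split hp]
  have : (a p) * (((p : ℝ) ^ (-(1 + δ)) : ℝ) * (p : ℂ) ^ (-(y * Complex.I))) =
      (((p : ℝ) ^ (-(1 + δ)) : ℝ) : ℂ) * (a p * (p : ℂ) ^ (-(y * Complex.I))) := by ring
  rw [this, Complex.re_ofReal_mul, gg]
  ring

theorem DS_Ph {a : ℕ → ℂ} (h : CMC a) (δ y : ℝ) :
    DS (tw a (1 + δ)) y = ∑' n, Ph h δ y n := by
  rw [DS_eq h.zero, LSeries]
  refine tsum_congr fun n => ?_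
  rw [Ph_apply]
  rcases Nat.eq_zero_or_pos n with h0 | h0
  · subst h0; simp [h.zero]
  · rw [LSeries.term_of_ne_zero h0.ne', div_eq_mul_inv, ← Complex.cpow_neg, pt]

/-- the non-pretentious functions -/
def NP (a : ℕ → ℂ) : Prop := ∀ y : ℝ, ¬ Summable (fun p : Nat.Primes => gg a p 0 y)

theorem hf_of {a : ℕ → ℂ} (h : CMC a) (hn : NP a) : HF a := by
  intro B η hη
  have hloc : ∀ y₀ ∈ Set.Icc (-B) B, ∀ᶠ z : ℝ × ℝ in 𝓝 ((0 : ℝ), y₀),
      0 < z.1 → z.1 * ‖∑' n : ℕ, Ph h z.1 z.2 n‖ ≤ η := by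
    intro y₀ _
    have hns := hn y₀
    obtain ⟨M, hM⟩ : ∃ M : ℝ, 2 * Real.exp (2 * K - M) ≤ η := by
      refine ⟨2 * K - Real.log (η / 2), ?_⟩
      have : 2 * K - (2 * K - Real.log (η / 2)) = Real.log (η / 2) := by ring
      rw [this, Real.exp_log (by positivity)]
      linarith
    obtain ⟨S, hS⟩ : ∃ S : Finset Nat.Primes, M < ∑ p ∈ S, gg a p 0 y₀ := by
      by_contra hcon
      push Not at hcon
      exact hns (summable_of_sum_le (fun p => gg_nonneg h.bdd p.2.pos 0 y₀) hcon)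
    have hc : Continuous (fun x : ℝ × ℝ => ∑ p ∈ S, gg a p x.1 x.2) :=
      continuous_finsetSum _ fun p _ => gg_cont a p.2.pos
    have h1 : ∀ᶠ z : ℝ × ℝ in 𝓝 ((0 : ℝ), y₀), M < ∑ p ∈ S, gg a p z.1 z.2 :=
      (hc.tendsto ((0 : ℝ), y₀)).eventually (lt_mem_nhds hS)
    have h2 : ∀ᶠ z : ℝ × ℝ in 𝓝 ((0 : ℝ), y₀), 0 < z.1 →
        z.1 * Real.exp (∑' p : Nat.Primes, ((p : ℕ) : ℝ) ^ (-(1 + z.1)) - K) ≤ 2 := by
      have h3 := eventually_nhdsWithin_iff.1 zeta_up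
      have h4 : Tendsto (fun z : ℝ × ℝ => z.1) (𝓝 ((0 : ℝ), y₀)) (𝓝 0) :=
        continuous_fst.tendsto ((0 : ℝ), y₀)
      exact h4.eventually h3
    filter_upwards [h1, h2] with z h3 h4 hz
    have h5 := upper (Ph h z.1 z.2) (Ph_summ h z.2 hz) (Ph_prime h z.2 hz)
    have h6 := summ_re (Ph h z.1 z.2) (Ph_summ h z.2 hz) (Ph_prime h z.2 hz)
    have hsP : Summable (fun p : Nat.Primes => ((p : ℕ) : ℝ) ^ (-(1 + z.1))) :=
      Nat.Primes.summable_rpow.2 (by linarith)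
    have e : ∀ p : Nat.Primes, gg a p z.1 z.2 = ((p : ℕ) : ℝ) ^ (-(1 + z.1)) -
        (Ph h z.1 z.2 (p : ℕ)).re := fun p => gg_eq h p.2.pos _ _
    have h7 : Summable (fun p : Nat.Primes => gg a p z.1 z.2) := by
      simp only [e]; exact hsP.sub h6
    have h8 : ∑' p : Nat.Primes, gg a p z.1 z.2 = ∑' p : Nat.Primes, ((p : ℕ) : ℝ) ^ (-(1 + z.1)) -
        ∑' p : Nat.Primes, (Ph h z.1 z.2 (p : ℕ)).re := by
      simp only [e]; exact hsP.tsum_sub h6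
    have h9 : M < ∑' p : Nat.Primes, gg a p z.1 z.2 :=
      h3.trans_le (h7.sum_le_tsum S (fun p _ => gg_nonneg h.bdd p.2.pos z.1 z.2))
    calc z.1 * ‖∑' n, Ph h z.1 z.2 n‖
          ≤ z.1 * Real.exp (∑' p : Nat.Primes, (Ph h z.1 z.2 (p : ℕ)).re + K) :=
            mul_le_mul_of_nonneg_left h5 hz.le
        _ = (z.1 * Real.exp (∑' p : Nat.Primes, ((p : ℕ) : ℝ) ^ (-(1 + z.1)) - K)) *
            Real.exp (2 * K - ∑' p : Nat.Primes, gg a p z.1 z.2) := by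
            rw [mul_assoc, ← Real.exp_add]
            congr 2
            rw [h8]
            ring
        _ ≤ 2 * Real.exp (2 * K - ∑' p : Nat.Primes, gg a p z.1 z.2) :=
            mul_le_mul_of_nonneg_right (h4 hz) (Real.exp_pos _).le
        _ ≤ 2 * Real.exp (2 * K - M) := by
            have : Real.exp (2 * K - ∑' p : Nat.Primes, gg a p z.1 z.2) ≤
                Real.exp (2 * K - M) := Real.exp_le_exp.2 (by linarith)
            linarith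
        _ ≤ η := hM
  have hev : ∀ᶠ δ : ℝ in 𝓝 0, ∀ y ∈ Set.Icc (-B) B, 0 < δ → δ * ‖∑' n : ℕ, Ph h δ y n‖ ≤ η :=
    IsCompact.eventually_forall_of_forall_eventually (x₀ := (0 : ℝ)) (K := Set.Icc (-B) B)
      (P := fun δ y : ℝ => 0 < δ → δ * ‖∑' n : ℕ, Ph h δ y n‖ ≤ η) isCompact_Icc hloc
  obtain ⟨r, hr, hball⟩ := Metric.eventually_nhds_iff.1 hev
  refine ⟨min r 1, lt_min hr one_pos, min_le_right _ _, ?_⟩
  intro δ hδ0 hδ y hy
  have h1 : dist δ 0 < r := by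
    rw [Real.dist_eq, sub_zero, abs_of_pos hδ0]
    exact hδ.trans_le (min_le_left _ _)
  rw [DS_Ph h]
  exact hball h1 y (abs_le.1 hy) hδ0

end Pool.Agent.Y868.VR
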